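import Pool.Agent.Work.MP_376faf_co_poly.FM
import Pool.Agent.Work.MP_376faf_co_neps.Gen

/-! Theorem FM for generating functions: the mass of the ray hairpins with the first arm in
`[X, T)`, `T ≤ 2 X`, and the second arm `≥ T` is at most the mass of the bridges. -/

set_option autoImplicit false

namespace Pool.Agent.Work.MP_376faf_co_poly

open Pool.Agent.Work.MP_376faf_co_lower Pool.Agent.Work.MP_376faf_co_hw
open Pool.Agent.Work.MP_376faf_co_neps
open scoped ENNReal

/-- ray hairpins: the first arm `c` has span in `[X, T)`, the second arm `e` has span `≥ T`, and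
`ng e` meets the column of the start of `c` only above the start of `c` -/
structure RH (X T : ℕ) (c e : List Pt) : Prop where
  bc : Bridge c
  be : Bridge e
  lo : X ≤ sp c
  up : sp c < T
  long : T ≤ sp e
  walk : Walk (c ++ ng e)
  ray : ∀ k ≤ c.length + e.length, 0 < k → (pos (c ++ ng e) k).1 = 0 →
    0 < (pos (c ++ ng e) k).2

theorem fd_append_ry (c e : List Pt) : fd (c ++ ry e) c.length = c ++ ng e := by
  unfold fd
  rw [List.take_left' rfl, List.drop_left' rfl, map_fl_ry]

theorem RH.cut {X T : ℕ} {c e : List Pt} (h : RH X T c e) : Cut (c ++ ry e) c.length := by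
  refine ⟨?_, ?_⟩
  · intro j hj
    rw [pos_append_left _ _ hj, pos_append_left _ _ le_rfl]
    exact h.bc.le_end hj
  · intro j h1 h2
    rw [List.length_append, ry_length] at h2
    obtain ⟨i, rfl⟩ : ∃ i, j = c.length + i := ⟨j - c.length, by omega⟩
    rw [pos_append_right, pos_append_left _ _ le_rfl, pos_len, Prod.fst_add]
    have := ((ry_bridge h.be).2 i (by omega) (by rw [ry_length]; omega)).1
    omega

theorem RH.pos_tip {X T : ℕ} {c e : List Pt} (h : RH X T c e) :
    (pos (c ++ ry e) c.length).1 = sp c := by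
  rw [pos_append_left _ _ le_rfl, pos_len, sp_eq h.bc]

theorem RH.pos_end {X T : ℕ} {c e : List Pt} (h : RH X T c e) :
    (pos (c ++ ry e) (c.length + e.length)).1 = sp c + sp e := by
  rw [pos_append_right, ← ry_length e, pos_len, Prod.fst_add, ← sp_eq h.bc,
    ← sp_eq (ry_bridge h.be), sp_ry]

theorem RH.hr {X T : ℕ} {c e : List Pt} (h : RH X T c e) :
    HR (c.length + e.length) X T (c ++ ng e) := by
  have h1 := h.lo
  have h2 := h.up
  have h3 := h.long
  refine ⟨c ++ ry e, c.length, bridge_append h.bc (ry_bridge h.be), by simp, h.cut, by omega, ?_, ?_,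
    ?_, (fd_append_ry c e).symm, h.walk, h.ray⟩
  · rw [h.pos_tip]
    exact_mod_cast h1
  · rw [h.pos_tip]
    exact_mod_cast h2
  · rw [h.pos_end, h.pos_tip]
    omega

/-- the two arms are determined by the hairpin -/
theorem RH.inj {X T X' T' : ℕ} {c e c' e' : List Pt} (h : RH X T c e) (h' : RH X' T' c' e')
    (he : c ++ ng e = c' ++ ng e') : c = c' ∧ e = e' := by
  have key : ∀ {X T X' T' : ℕ} {c e c' e' : List Pt} (h : RH X T c e) (h' : RH X' T' c' e')
      (he : c ++ ng e = c' ++ ng e'), ¬ c.length < c'.length := by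
    intro X T X' T' c e c' e' h h' he hlt
    have hlen : c.length + e.length = c'.length + e'.length := by
      have := congrArg List.length he
      simpa using this
    have h1 : pos (c ++ ng e) c.length = pos c c.length := pos_append_left _ _ le_rfl
    have h2 : pos (c' ++ ng e') c.length = pos c' c.length := pos_append_left _ _ hlt.le
    have h3 : pos (c' ++ ng e') c'.length = pos c' c'.length := pos_append_left _ _ le_rfl
    obtain ⟨i, hi⟩ : ∃ i, c'.length = c.length + i := ⟨c'.length - c.length, by omega⟩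
    have h4 : pos (c ++ ng e) c'.length = pos c c.length + pos (ng e) i := by
      rw [hi, pos_append_right, ← pos_len]
    have h5 := h'.bc.le_end hlt.le
    have h6 := (h.be.2 i (by omega) (by omega)).1
    rw [he, h3] at h4
    rw [he, h2] at h1
    rw [h4, h1, pos_ng] at h5
    simp only [Prod.fst_add, Prod.fst_neg] at h5
    omega
  have h1 := key h h' he
  have h2 := key h' h he.symm
  obtain ⟨h3, h4⟩ := List.append_inj he (by omega)
  refine ⟨h3, ?_⟩
  rw [← ng_ng e, h4, ng_ng]

/-- Theorem FM for generating functions. -/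
theorem fm_sum (x : ℝ≥0∞) {z : ℝ≥0∞} (hz : z ≤ 1) {X T : ℕ} (hX : 1 ≤ X) (hT : T ≤ 2 * X) :
    ∑' p : {p : Br × Br // RH X T p.1.1 p.2.1}, wz x z p.1.1.1 * wz x z p.1.2.1 ≤ UU x z := by
  rcases Nat.eq_zero_or_pos T with hT0 | hT0
  · subst hT0
    have : IsEmpty {p : Br × Br // RH X 0 p.1.1 p.2.1} :=
      ⟨fun p => absurd p.2.up (Nat.not_lt_zero _)⟩
    rw [tsum_empty]
    exact zero_le
  choose g hg1 hg2 using fun n => fm n X T hX hT0 hT
  have hG : ∀ p : {p : Br × Br // RH X T p.1.1 p.2.1},
      Bridge (g (p.1.1.1.length + p.1.2.1.length) (p.1.1.1 ++ ng p.1.2.1)) := fun p =>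
    (hg2 _ _ p.2.hr).1
  refine tsum_le_inj (fun p : {p : Br × Br // RH X T p.1.1 p.2.1} => (⟨_, hG p⟩ : Br)) ?_ ?_
  · rintro ⟨⟨⟨c, hc⟩, ⟨e, he⟩⟩, h⟩ ⟨⟨⟨c', hc'⟩, ⟨e', he'⟩⟩, h'⟩ hab
    simp only at h h' hab
    have h1 : g (c.length + e.length) (c ++ ng e) = g (c'.length + e'.length) (c' ++ ng e') :=
      congrArg Subtype.val hab
    have h2 : c.length + e.length = c'.length + e'.length := by
      rw [← (hg2 _ _ h.hr).2.1, h1, (hg2 _ _ h'.hr).2.1]
    rw [← h2] at h1
    have h3 := h'.hr
    rw [← h2] at h3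
    have h4 : c ++ ng e = c' ++ ng e' := hg1 (c.length + e.length) h.hr h3 h1
    obtain ⟨h5, h6⟩ := h.inj h' h4
    subst h5 h6
    rfl
  · rintro ⟨⟨⟨c, hc⟩, ⟨e, he⟩⟩, h⟩
    simp only at h ⊢
    obtain ⟨hb, hn, i, hi, hfd, hmax⟩ := hg2 _ _ h.hr
    set w := g (c.length + e.length) (c ++ ng e) with hw
    have hsp : sp w ≤ sp c + sp e := by
      have h1 : (pos (c ++ ng e) (c.length + e.length)).1 =
          2 * (pos w i).1 - (pos w (c.length + e.length)).1 := by
        rw [← hfd, pos_fd_ge (by omega) hi]
      have h2 : (pos (c ++ ng e) (c.length + e.length)).1 = sp c - sp e := by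
        rw [pos_append_right, ← ng_length e, pos_len, Prod.fst_add, ← sp_eq h.bc]
        have h3 : (ng e).sum = - e.sum := by
          have := pos_ng e e.length
          rw [pos_len, ← ng_length e, pos_len] at this
          exact this
        rw [h3, Prod.fst_neg, ← sp_eq h.be]
        ring
      have h3 : (pos w (c.length + e.length)).1 = sp w := by
        rw [← hn, pos_len, sp_eq hb]
      have h4 : (pos w i).1 ≤ sp c := by
        have h5 : (pos (c ++ ng e) i).1 = (pos w i).1 := by
          rw [← hfd, pos_fd_le (by omega) le_rfl]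
        rw [← h5]
        rcases Nat.le_total i c.length with h6 | h6
        · rw [pos_append_left _ _ h6]
          have := h.bc.le_end h6
          rw [pos_len, ← sp_eq h.bc] at this
          exact this
        · obtain ⟨m, rfl⟩ : ∃ m, i = c.length + m := ⟨i - c.length, by omega⟩
          rw [pos_append_right, Prod.fst_add, ← sp_eq h.bc, pos_ng, Prod.fst_neg]
          have := h.be.nonneg (i := m) (by omega)
          omega
      omega
    unfold wz
    rw [hn, pow_add]
    calc x ^ c.length * z ^ sp c * (x ^ e.length * z ^ sp e)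
        = x ^ c.length * x ^ e.length * z ^ (sp c + sp e) := by rw [pow_add]; ring
      _ ≤ x ^ c.length * x ^ e.length * z ^ sp w :=
        mul_le_mul' le_rfl (pow_le_pow_right_of_le_one' hz hsp)

end Pool.Agent.Work.MP_376faf_co_poly
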