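import Mathlib
import Pool.Agent.Work.MP_376faf_co_neps.SLemma

/-! The general ray S-lemma (notes 3118, 3134, 3156): `i` is a running maximum of the columns,
all columns after `j` are to the right of `j`; rays in the own columns: below the start, above the
end.  Parity argument. -/

set_option autoImplicit false

namespace Pool.Agent.Work.MP_376faf_co_poly

open Finset
open Pool.Agent.Work.MP_376faf_co_neps.Abs

/-- side function of the walk `a` with a ray going down from its start -/
def sd (n : ℕ) (a y : ℕ → ℤ) (c h : ℤ) : ZMod 2 :=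
  NN n a y c h + if a 0 + 1 ≤ c then 1 else 0

theorem NN_zero_of {n : ℕ} {a y : ℕ → ℤ} (c h : ℤ) (H : ∀ m ≤ n, a m ≠ c) :
    NN n a y c h = 0 := by
  unfold NN
  refine sum_eq_zero fun m hm => ?_
  have hm := mem_range.1 hm
  unfold ee
  rw [if_neg]
  rintro ⟨_, ⟨_, h2⟩ | ⟨h1, _⟩⟩
  · exact H (m + 1) (by omega) h2
  · exact H m (by omega) h1

/-- total number of crossings -/
theorem NN_total {n : ℕ} {a y : ℕ → ℤ} (hs : ∀ i < n, US a y i) (c h : ℤ)
    (H : ∀ m < n, y m < h) :
    NN n a y c h = (if c ≤ a n then 1 else 0) + (if c ≤ a 0 then 1 else 0) := by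
  induction n with
  | zero =>
    unfold NN
    rw [range_zero, sum_empty]
    exact (CharTwo.add_self_eq_zero _).symm
  | succ n ih =>
    have h1 := ih (fun i hi => hs i (by omega)) (fun m hm => H m (by omega))
    unfold NN at h1 ⊢
    rw [sum_range_succ, h1]
    unfold ee
    have h2 := H n (by omega)
    have h3 := two_zero
    rcases (hs n (by omega)).cases with ⟨h4, h5⟩ | ⟨h4, h5⟩ | ⟨h4, h5⟩ | ⟨h4, h5⟩ <;> rw [h4] <;>
      split_ifs <;> first | (exfalso; omega) | ring1 | linear_combination h3

/-- the two constancy statements -/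
theorem ray_core (n : ℕ) (x y : ℕ → ℤ) (hs : ∀ i < n, US x y i)
    (i j : ℕ) (hij : i < j) (hjn : j < n)
    (hinj : ∀ k ≤ i, ∀ l ≤ i, x k = x l → y k = y l → k = l)
    (hi : ∀ k ≤ i, x k ≤ x i) (hj : ∀ k ≤ n, j < k → x j < x k)
    (hfi : ∀ k ≤ i, ∀ l ≤ n, i < l → x k = 2 * x i - x l → y k = y l → False)
    (hfj : ∀ k ≤ j, ∀ l ≤ n, j < l → x k = 2 * x j - x l → y k = y l → False)
    (hD0 : x i = x 0 → y 0 ≤ y i)
    (hDi : ∀ l ≤ n, i < l → 2 * x i - x l = x 0 → y 0 < y l)
    (hDj : ∀ l ≤ n, j < l → 2 * x j - x l = x 0 → y 0 < y l)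
    (hUi : ∀ k ≤ i, x k = 2 * x i - x n → y k < y n)
    (hend : sd n (fun m => 2 * x i - x m) y (x n - 2 * (x j - x i)) (y n) = 1) :
    (∀ h ≤ y 0, NN n (fun m => 2 * x i - x m) y (x 0) h = 0) ∧
    (∀ k < i, NN n (fun m => 2 * x i - x m) y (x k) (y k) = 0) ∧
    (∀ l ≤ n, j < l → sd n (fun m => 2 * x i - x m) y (x l - 2 * (x j - x i)) (y l) = 1) ∧
    (∀ l ≤ n, j < l → ∀ m ≤ n, ¬ (2 * x i - x m = x l - 2 * (x j - x i) ∧ y m = y l)) := by
  set a : ℕ → ℤ := fun m => 2 * x i - x m with ha
  have hai : ∀ m, a m = 2 * x i - x m := fun m => rfl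
  have hsa : ∀ m < n, US a y m := by
    intro m hm
    have := hs m hm
    unfold US at this ⊢
    rw [← this]
    congr 1
    rw [hai, hai, show 2 * x i - x (m + 1) - (2 * x i - x m) = -(x (m + 1) - x m) by ring, abs_neg]
  -- `R'` avoids `A`
  have hR : ∀ l ≤ n, j < l → ∀ m ≤ n, ¬ (a m = x l - 2 * (x j - x i) ∧ y m = y l) := by
    rintro l hl hjl m hm ⟨h1, h2⟩
    rw [hai] at h1
    rcases Nat.lt_or_ge j m with h3 | h3
    · have h4 := hj m hm h3
      have h5 := hj l hl hjl
      omega
    · exact hfj m h3 l hl hjl (by omega) h2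
  have hx0 := hi 0 (by omega)
  have ha0 : a 0 = 2 * x i - x 0 := hai 0
  have han : a n = 2 * x i - x n := hai n
  -- points of `A` in columns `< x i` have indices `> i`
  have hcol : ∀ m, a m < x i → i < m := by
    intro m h4
    by_contra h5
    have := hi m (by omega)
    rw [hai] at h4
    omega
  -- `P` without its last point avoids the points of `A` with indices `≥ i`
  have hP : ∀ k < i, ∀ m ≤ n, i ≤ m → ¬ (a m = x k ∧ y m = y k) := by
    rintro k hk m hm him ⟨h1, h2⟩
    rw [hai] at h1
    rcases Nat.lt_or_ge i m with h3 | h3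
    · exact hfi k hk.le m hm h3 (by omega) h2.symm
    · have h4 : m = i := by omega
      subst h4
      have := hinj m le_rfl k hk.le (by omega) h2
      omega
  -- the ray below the start
  have hray : ∀ h ≤ y 0, NN n a y (x 0) h = 0 := by
    intro h hh
    unfold NN
    refine sum_eq_zero fun m hm => ?_
    have hm := mem_range.1 hm
    unfold ee
    rw [if_neg]
    have key : ∀ m ≤ n, i ≤ m → a m = x 0 → y m < h → False := by
      intro m hm him h1 h2
      rcases Nat.eq_or_lt_of_le him with h3 | h3
      · subst h3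
        rw [hai] at h1
        have := hD0 (by omega)
        omega
      · have := hDi m hm h3 (by rw [hai] at h1; exact h1)
        omega
    rintro ⟨h1, h2 | h2⟩
    · have h3 := hcol m (by omega)
      have hus := (hsa m hm).cases
      exact key (m + 1) (by omega) (by omega) h2.2 (by omega)
    · have h3 := hcol (m + 1) (by omega)
      exact key m (by omega) (by omega) h2.1 h1
  refine ⟨hray, ?_, ?_, hR⟩
  · -- `P` is on the left side
    intro k
    induction k with
    | zero =>
      intro _
      exact hray _ le_rfl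
    | succ k ih =>
      intro h1
      have h3 := ih (by omega)
      have hxk := hi k (by omega)
      have hxk1 := hi (k + 1) (by omega)
      have hedge : ∀ k' < i, x k' ≤ x i → ∀ m < n, ¬ (y m = y k' ∧
          ((a m = x k' - 1 ∧ a (m + 1) = x k') ∨ (a m = x k' ∧ a (m + 1) = x k' - 1))) := by
        rintro k' hk' hxk' m hm ⟨h4, h5 | h5⟩
        · have h6 := hcol m (by omega)
          have hus := (hsa m hm).cases
          exact hP k' hk' (m + 1) (by omega) (by omega) ⟨h5.2, by omega⟩
        · have h6 := hcol (m + 1) (by omega)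
          exact hP k' hk' m hm.le (by omega) ⟨h5.1, h4⟩
      -- horizontal moves
      have hh : ∀ k' < i, x k' < x i → NN n a y (x k' + 1) (y k') = NN n a y (x k') (y k') := by
        intro k' hk' hxk'
        have h2 := tele n hsa (x k') (y k')
        have h4 : gg a y (x k') (y k') n = 0 := by
          unfold gg
          rw [if_neg]
          rintro ⟨h5, h6⟩
          have := hUi k' hk'.le (by omega)
          omega
        have h5 : gg a y (x k') (y k') 0 = 0 := by
          unfold gg
          rw [if_neg]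
          rintro ⟨h5, h6⟩
          omega
        have h6 : ∑ i ∈ range n, vv a y (x k') (y k') i = 0 := by
          refine sum_eq_zero (fun m hm => ?_)
          have hm := mem_range.1 hm
          unfold vv
          rw [if_neg]
          rintro ⟨h5, h6, h7 | h7⟩
          · exact hP k' hk' m (by omega) (hcol m (by omega)).le ⟨h5, h7.1⟩
          · exact hP k' hk' (m + 1) (by omega) (hcol (m + 1) (by omega)).le ⟨h6, h7.2⟩
        rw [h4, h5, h6, add_zero, add_zero] at h2
        change 0 = NN n a y (x k') (y k') + NN n a y (x k' + 1) (y k') at h2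
        have := CharTwo.add_self_eq_zero (NN n a y (x k') (y k'))
        linear_combination (-1 : ZMod 2) * h2 + (-1 : ZMod 2) * this
      rcases (hs k (by omega)).cases with ⟨h4, h5⟩ | ⟨h4, h5⟩ | ⟨h4, h5⟩ | ⟨h4, h5⟩
      · rw [h4, h5, hh k (by omega) (by omega)]
        exact h3
      · have h9 : x k = x (k + 1) + 1 := by omega
        rw [h9, ← h5] at h3
        rw [← h3]
        exact (hh (k + 1) h1 (by omega)).symm
      · rw [h4, h5, NN_vert]
        · exact h3
        · exact hedge k (by omega) hxk
      · have h9 : y k = y (k + 1) + 1 := by omega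
        rw [h9, ← h4, NN_vert] at h3
        · exact h3
        · exact hedge (k + 1) h1 hxk1
  · -- the side function is constant along `R'`
    have hhor : ∀ c h : ℤ, a n < c → (∀ m ≤ n, ¬ (a m = c ∧ y m = h)) → (c = a 0 → y 0 < h) →
        sd n a y (c + 1) h = sd n a y c h := by
      intro c h hc hAc hr
      unfold sd
      by_cases h1 : c = a 0
      · have h2 := tele n hsa c h
        have h3 : gg a y c h n = 0 := by unfold gg; rw [if_neg]; intro h; omega
        have h4 : gg a y c h 0 = 1 := by unfold gg; rw [if_pos ⟨h1.symm, hr h1⟩]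
        have h5 : ∑ i ∈ range n, vv a y c h i = 0 := by
          refine sum_eq_zero (fun i hi => ?_)
          have hi := mem_range.1 hi
          unfold vv
          rw [if_neg]
          rintro ⟨h5, h6, h7 | h7⟩
          · exact hAc i (by omega) ⟨h5, h7.1⟩
          · exact hAc (i + 1) (by omega) ⟨h6, h7.2⟩
        rw [h3, h4, h5, zero_add, add_zero] at h2
        rw [if_pos (by omega), if_neg (by omega), add_zero]
        change 1 = NN n a y c h + NN n a y (c + 1) h at h2
        have := CharTwo.add_self_eq_zero (NN n a y c h)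
        have h6 := two_zero
        linear_combination (-1 : ZMod 2) * h2 + (-1 : ZMod 2) * this + h6
      · rw [NN_hor hsa c h hAc (by omega) (by omega)]
        congr 1
        by_cases h2 : a 0 + 1 ≤ c
        · rw [if_pos (by omega), if_pos h2]
        · rw [if_neg (by omega), if_neg h2]
    have hver : ∀ c h : ℤ, (∀ m ≤ n, ¬ (a m = c ∧ y m = h)) →
        sd n a y c (h + 1) = sd n a y c h := by
      intro c h hAc
      unfold sd
      rw [NN_vert c h]
      rintro m hm ⟨h1, h2 | h2⟩
      · have h3 := (hsa m hm).cases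
        exact hAc (m + 1) (by omega) ⟨h2.2, by omega⟩
      · exact hAc m (by omega) ⟨h2.1, h1⟩
    have hright : ∀ m : ℕ, m ≤ n → j < n - m →
        sd n a y (x (n - m) - 2 * (x j - x i)) (y (n - m)) = 1 := by
      intro m
      induction m with
      | zero =>
        intro _ h1
        exact hend
      | succ m ih =>
        intro h1 h2
        obtain ⟨l, hl⟩ : ∃ l, l = n - (m + 1) := ⟨_, rfl⟩
        have hl1 : n - m = l + 1 := by omega
        have h3 := ih (by omega) (by omega)
        rw [hl1] at h3
        rw [← hl] at h2 ⊢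
        have hln : l + 1 ≤ n := by omega
        have hxl := hj l (by omega) h2
        have hxl1 := hj (l + 1) hln (by omega)
        have hxn := hj n le_rfl hjn
        have hA := hR l (by omega) h2
        have hA1 := hR (l + 1) hln (by omega)
        have hr : x l - 2 * (x j - x i) = a 0 → y 0 < y l := fun h =>
          hDj l (by omega) h2 (by omega)
        have hr1 : x (l + 1) - 2 * (x j - x i) = a 0 → y 0 < y (l + 1) := fun h =>
          hDj (l + 1) hln (by omega) (by omega)
        rcases (hs l (by omega)).cases with ⟨h4, h5⟩ | ⟨h4, h5⟩ | ⟨h4, h5⟩ | ⟨h4, h5⟩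
        · rw [← h3, h4, h5, show x l + 1 - 2 * (x j - x i) = x l - 2 * (x j - x i) + 1 by ring]
          exact (hhor _ _ (by omega) (fun m hm => hA m hm) hr).symm
        · rw [← h3, h5, show x l - 2 * (x j - x i) = x (l + 1) - 2 * (x j - x i) + 1 by omega]
          rw [← h5]
          exact hhor _ _ (by omega) (fun m hm => hA1 m hm) hr1
        · rw [← h3, h4, h5]
          exact (hver _ _ (fun m hm => hA m hm)).symm
        · rw [← h3, h4, show y l = y (l + 1) + 1 by omega]
          exact hver (x l - 2 * (x j - x i)) (y (l + 1)) (fun m hm => by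
            have := hA1 m hm
            rwa [h4] at this)
    intro l hl hjl
    have h5 := hright (n - l) (by omega) (by omega)
    rwa [show n - (n - l) = l by omega] at h5

/-- The ray S-lemma, far end: `2 x j < x n + x 0` and no column is `< x 0`. -/
theorem ray_far (n : ℕ) (x y : ℕ → ℤ) (hs : ∀ i < n, US x y i)
    (i j : ℕ) (hij : i < j) (hjn : j < n)
    (hinj : ∀ k ≤ i, ∀ l ≤ i, x k = x l → y k = y l → k = l)
    (hx : ∀ k ≤ n, x 0 ≤ x k)
    (hi : ∀ k ≤ i, x k ≤ x i) (hj : ∀ k ≤ n, j < k → x j < x k)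
    (hd : x i < x j) (hS : 2 * x j < x n + x 0)
    (hfi : ∀ k ≤ i, ∀ l ≤ n, i < l → x k = 2 * x i - x l → y k = y l → False)
    (hfj : ∀ k ≤ j, ∀ l ≤ n, j < l → x k = 2 * x j - x l → y k = y l → False)
    (hD0 : x i = x 0 → y 0 ≤ y i)
    (hDi : ∀ l ≤ n, i < l → 2 * x i - x l = x 0 → y 0 < y l)
    (hDj : ∀ l ≤ n, j < l → 2 * x j - x l = x 0 → y 0 < y l) :
    ∀ k ≤ i, ∀ l ≤ n, j < l → x k = x l - 2 * (x j - x i) → y k = y l → False := by
  have hxn := hj n le_rfl hjn
  obtain ⟨_, h1, h2, h3⟩ := ray_core n x y hs i j hij hjn hinj hi hj hfi hfj hD0 hDi hDj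
    (fun k hk h => by have := hx k (by omega); omega) (by
      unfold sd
      have h9 : (fun m => 2 * x i - x m) 0 = 2 * x i - x 0 := rfl
      rw [NN_zero_of _ _ fun m hm => by have := hx m hm; omega, zero_add, if_pos (by omega)])
  intro k hk l hl hjl h4 h5
  rcases Nat.lt_or_ge k i with h6 | h6
  · have h7 := h1 k h6
    have h8 := h2 l hl hjl
    rw [← h4, ← h5] at h8
    have h9 := hi k hk
    have h10 := hi 0 (by omega)
    have h11 : (fun m => 2 * x i - x m) 0 = 2 * x i - x 0 := rfl
    unfold sd at h8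
    rw [if_neg (by omega), add_zero, h7] at h8
    exact zero_ne_one h8
  · have h7 : k = i := by omega
    subst h7
    exact h3 l hl hjl k (by omega) ⟨by omega, h5⟩

/-- The general ray S-lemma, rays in the own columns. -/
theorem ray_gen (n : ℕ) (x y : ℕ → ℤ) (hs : ∀ i < n, US x y i)
    (i j : ℕ) (hij : i < j) (hjn : j < n)
    (hinj : ∀ k ≤ i, ∀ l ≤ i, x k = x l → y k = y l → k = l)
    (hi : ∀ k ≤ i, x k ≤ x i) (hj : ∀ k ≤ n, j < k → x j < x k) (hd : x i < x j)
    (hfi : ∀ k ≤ i, ∀ l ≤ n, i < l → x k = 2 * x i - x l → y k = y l → False)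
    (hfj : ∀ k ≤ j, ∀ l ≤ n, j < l → x k = 2 * x j - x l → y k = y l → False)
    (hD0 : x i = x 0 → y 0 ≤ y i)
    (hDi : ∀ l ≤ n, i < l → 2 * x i - x l = x 0 → y 0 < y l)
    (hDj : ∀ l ≤ n, j < l → 2 * x j - x l = x 0 → y 0 < y l)
    (hUi : ∀ k ≤ i, x k = 2 * x i - x n → y k < y n)
    (hUj : ∀ k ≤ j, x k = 2 * x j - x n → y k < y n) :
    (∀ k ≤ i, ∀ l ≤ n, j < l → x k = x l - 2 * (x j - x i) → y k = y l → False) ∧
    (∀ k ≤ i, x k = x n - 2 * (x j - x i) → y k < y n) ∧
    (∀ l ≤ n, j < l → x l - 2 * (x j - x i) = x 0 → y 0 < y l) := by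
  have hxn := hj n le_rfl hjn
  have hx0 := hi 0 (by omega)
  set a : ℕ → ℤ := fun m => 2 * x i - x m with ha
  have hai : ∀ m, a m = 2 * x i - x m := fun m => rfl
  have hsa : ∀ m < n, US a y m := by
    intro m hm
    have := hs m hm
    unfold US at this ⊢
    rw [← this]
    congr 1
    rw [hai, hai, show 2 * x i - x (m + 1) - (2 * x i - x m) = -(x (m + 1) - x m) by ring, abs_neg]
  -- the ray above the end of `R'` avoids `A`
  have hup : ∀ h, y n ≤ h → ∀ m ≤ n, ¬ (a m = x n - 2 * (x j - x i) ∧ y m = h) := by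
    rintro h hh m hm ⟨h1, h2⟩
    rw [hai] at h1
    rcases Nat.lt_or_ge j m with h3 | h3
    · have h4 := hj m hm h3
      omega
    · have := hUj m h3 (by omega)
      omega
  -- the side function on this ray
  have hclimb : ∀ m : ℕ, sd n a y (x n - 2 * (x j - x i)) (y n + m) =
      sd n a y (x n - 2 * (x j - x i)) (y n) := by
    intro m
    induction m with
    | zero => simp
    | succ m ih =>
      rw [← ih]
      push_cast
      rw [← add_assoc]
      unfold sd
      rw [NN_vert]
      rintro m' hm' ⟨h1, h2 | h2⟩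
      · have h3 := (hsa m' hm').cases
        exact hup (y n + m) (by omega) (m' + 1) (by omega) ⟨h2.2, by omega⟩
      · exact hup (y n + m) (by omega) m' (by omega) ⟨h2.1, h1⟩
  have hend : sd n a y (x n - 2 * (x j - x i)) (y n) = 1 := by
    obtain ⟨B, hB⟩ : ∃ B : ℕ, ∀ m < n, y m < y n + B := by
      refine ⟨(range n).sup fun m => (y m - y n + 1).toNat, fun m hm => ?_⟩
      have h1 : (y m - y n + 1).toNat ≤ (range n).sup fun m => (y m - y n + 1).toNat :=
        le_sup (f := fun m => (y m - y n + 1).toNat) (mem_range.2 hm)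
      omega
    rw [← hclimb B]
    unfold sd
    rw [NN_total hsa _ _ hB, if_neg (by rw [hai]; omega), zero_add]
    have h3 := two_zero
    have h0 := hai 0
    split_ifs <;> first | omega | simp
  obtain ⟨h0, h1, h2, h3⟩ := ray_core n x y hs i j hij hjn hinj hi hj hfi hfj hD0 hDi hDj hUi hend
  refine ⟨?_, ?_, ?_⟩
  · intro k hk l hl hjl h4 h5
    rcases Nat.lt_or_ge k i with h6 | h6
    · have h7 := h1 k h6
      have h8 := h2 l hl hjl
      rw [← h4, ← h5] at h8
      have h9 := hi k hk
      have h11 : (fun m => 2 * x i - x m) 0 = 2 * x i - x 0 := rfl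
      unfold sd at h8
      rw [if_neg (by omega), add_zero, h7] at h8
      exact zero_ne_one h8
    · have h7 : k = i := by omega
      subst h7
      exact h3 l hl hjl k (by omega) ⟨by omega, h5⟩
  · intro k hk h4
    by_contra h5
    rcases Nat.lt_or_ge k i with h6 | h6
    · have h7 := h1 k h6
      have h8 := hclimb (y k - y n).toNat
      rw [hend, show y n + ((y k - y n).toNat : ℤ) = y k by omega, ← h4] at h8
      have h9 := hi k hk
      unfold sd at h8
      rw [if_neg (by rw [hai]; omega), add_zero, h7] at h8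
      exact zero_ne_one h8
    · have h7 : k = i := by omega
      subst h7
      exact hup (y k) (by omega) k (by omega) ⟨by rw [hai]; omega, rfl⟩
  · intro l hl hjl h4
    by_contra h5
    have h8 := h2 l hl hjl
    have h11 : (fun m => 2 * x i - x m) 0 = 2 * x i - x 0 := rfl
    rw [h4] at h8
    unfold sd at h8
    rw [if_neg (by omega), add_zero, h0 (y l) (by omega)] at h8
    exact zero_ne_one h8

end Pool.Agent.Work.MP_376faf_co_poly
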