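import Pool.Agent.Work.MP_376faf_co_hw.BrCount
import Pool.Agent.Work.MP_376faf_co_poly.RayG
import Pool.Agent.Work.MP_376faf_co_log.Ferm

/-! Theorem FM (notes 3118, 3134): there is an injection from the hairpins with `n` steps and the
ray condition, first arm in `[X, T)`, `T ≤ 2 X`, second arm `≥ T`, to the bridges with `n` steps,
which does not increase the (unfolded) span. -/

set_option autoImplicit false

namespace Pool.Agent.Work.MP_376faf_co_poly

open Pool.Agent.Work.MP_376faf_co_lower Pool.Agent.Work.MP_376faf_co_hw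
open Pool.Agent.Work.MP_376faf_co_neps.Abs (US)

/-- fold at the index `i`: all later steps are reflected in a vertical line -/
def fd (l : List Pt) (i : ℕ) : List Pt := l.take i ++ (l.drop i).map fl

/-- fold at `i` and back at `j` -/
def fd2 (l : List Pt) (i j : ℕ) : List Pt :=
  l.take i ++ (((l.drop i).take (j - i)).map fl ++ l.drop j)

/-- hairpins `h = fd v t`: `v` a bridge with `n` steps, `t` a renewal, first arm in `[X, T)`, second
arm `≥ T`, self-avoiding, no vertex on the ray `{(0, y) : y ≤ 0}` except the start -/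
def HR (n X T : ℕ) (h : List Pt) : Prop := ∃ v t, Bridge v ∧ v.length = n ∧ Cut v t ∧ t ≤ n ∧
  (X : ℤ) ≤ (pos v t).1 ∧ (pos v t).1 < T ∧ (T : ℤ) ≤ (pos v n).1 - (pos v t).1 ∧
  h = fd v t ∧ Walk h ∧ ∀ k ≤ n, 0 < k → (pos h k).1 = 0 → 0 < (pos h k).2

instance walkLenFinite (n : ℕ) : Finite {l : List Pt // Walk l ∧ l.length = n} := by
  refine Finite.of_injective (β := WalkFun n) (fun l => ⟨fun i => pos l.1 i.val, by simp, ?_, ?_⟩) ?_
  · intro i j hij
    have h2 := l.2.1.2 (show i.val ∈ Set.Iic l.1.length by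
        simp only [Set.mem_Iic, l.2.2]; omega)
      (show j.val ∈ Set.Iic l.1.length by simp only [Set.mem_Iic, l.2.2]; omega) hij
    exact Fin.ext h2
  · intro i
    have hi : i.val < l.1.length := by rw [l.2.2]; exact i.is_lt
    have h3 := l.2.1.1 _ (List.getElem_mem hi)
    simp only [Fin.val_succ, Fin.val_castSucc]
    rw [pos_succ _ hi]
    simpa [Un] using h3
  · intro l m hlm
    have h2 := congrArg (fun f : WalkFun n => f.1) hlm
    simp only at h2
    apply Subtype.ext
    refine eq_of_pos (by rw [l.2.2, m.2.2]) ?_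
    intro i hi
    exact congrFun h2 ⟨i, by rw [l.2.2] at hi; omega⟩

theorem fd_length (l : List Pt) (i : ℕ) : (fd l i).length = l.length := by
  unfold fd
  simp only [List.length_append, List.length_take, List.length_map, List.length_drop]
  omega

theorem fd2_length {l : List Pt} {i j : ℕ} (hij : i ≤ j) (hj : j ≤ l.length) :
    (fd2 l i j).length = l.length := by
  unfold fd2
  simp only [List.length_append, List.length_take, List.length_map, List.length_drop]
  omega

theorem fd_fd {l : List Pt} {i : ℕ} (hi : i ≤ l.length) : fd (fd l i) i = l := by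
  unfold fd
  have h1 : (l.take i).length = i := by rw [List.length_take]; omega
  rw [List.take_left' h1, List.drop_left' h1, List.map_map]
  have h2 : fl ∘ fl = id := by
    funext s
    exact fl_fl s
  rw [h2, List.map_id, List.take_append_drop]

/-- coordinates of a fold -/
theorem pos_fd_le {l : List Pt} {i k : ℕ} (hi : i ≤ l.length) (hk : k ≤ i) :
    pos (fd l i) k = pos l k := by
  unfold fd
  rw [pos_append_left _ _ (by rw [List.length_take]; omega), pos_take _ hk]

theorem pos_fd_ge {l : List Pt} {i k : ℕ} (hi : i ≤ l.length) (hk : i ≤ k) :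
    pos (fd l i) k = (2 * (pos l i).1 - (pos l k).1, (pos l k).2) := by
  obtain ⟨m, rfl⟩ : ∃ m, k = i + m := ⟨k - i, by omega⟩
  unfold fd
  have h1 : (l.take i).length = i := by rw [List.length_take]; omega
  have h2 := pos_append_right (l.take i) ((l.drop i).map fl) m
  rw [h1] at h2
  rw [h2, pos_flip, pos_drop l hi m]
  have h3 : (l.take i).sum = pos l i := rfl
  rw [h3]
  ext
  · simp [fl]; ring
  · simp [fl]

theorem map_fl_fl (l : List Pt) : (l.map fl).map fl = l := by
  rw [List.map_map]
  have h2 : fl ∘ fl = id := by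
    funext s
    exact fl_fl s
  rw [h2, List.map_id]

theorem split3 (l : List Pt) {i j : ℕ} (hij : i ≤ j) :
    l.take j = l.take i ++ (l.drop i).take (j - i) ∧
      l.drop i = (l.drop i).take (j - i) ++ l.drop j := by
  constructor
  · obtain ⟨m, rfl⟩ : ∃ m, j = i + m := ⟨j - i, by omega⟩
    rw [List.take_add, Nat.add_sub_cancel_left]
  · conv_lhs => rw [← List.take_append_drop (j - i) (l.drop i)]
    rw [List.drop_drop]
    congr 2
    omega

theorem fd_fd2_left {l : List Pt} {i j : ℕ} (hij : i ≤ j) (hj : j ≤ l.length) :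
    fd (fd2 l i j) i = fd l j := by
  have h1 : (l.take i).length = i := by rw [List.length_take]; omega
  unfold fd fd2
  rw [List.take_left' h1, List.drop_left' h1, List.map_append, map_fl_fl, (split3 l hij).1,
    List.append_assoc]

theorem fd_fd2_right {l : List Pt} {i j : ℕ} (hij : i ≤ j) (hj : j ≤ l.length) :
    fd (fd2 l i j) j = fd l i := by
  have h1 : (l.take i ++ ((l.drop i).take (j - i)).map fl).length = j := by
    simp only [List.length_append, List.length_take, List.length_map, List.length_drop]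
    omega
  unfold fd fd2
  rw [← List.append_assoc, List.take_left' h1, List.drop_left' h1, List.append_assoc,
    ← List.map_append, ← (split3 l hij).2]

theorem fd2_fd2 {l : List Pt} {i j : ℕ} (hij : i ≤ j) (hj : j ≤ l.length) :
    fd2 (fd2 l i j) i j = l := by
  have h1 : fd (fd2 (fd2 l i j) i j) i = fd (fd2 l i j) j :=
    fd_fd2_left hij (by rw [fd2_length hij hj]; exact hj)
  rw [fd_fd2_right hij hj] at h1
  have h2 : fd (fd (fd2 (fd2 l i j) i j) i) i = fd (fd l i) i := by rw [h1]
  rw [fd_fd (by rw [fd2_length hij (by rw [fd2_length hij hj]; exact hj), fd2_length hij hj]; omega),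
    fd_fd (by omega)] at h2
  exact h2

theorem pos_fd2_le {l : List Pt} {i j k : ℕ} (hij : i ≤ j) (hj : j ≤ l.length) (hk : k ≤ i) :
    pos (fd2 l i j) k = pos l k := by
  unfold fd2
  rw [pos_append_left _ _ (by rw [List.length_take]; omega), pos_take _ hk]

theorem pos_fd2_mid {l : List Pt} {i j k : ℕ} (hij : i ≤ j) (hj : j ≤ l.length) (hk : i ≤ k)
    (hkj : k ≤ j) :
    pos (fd2 l i j) k = (2 * (pos l i).1 - (pos l k).1, (pos l k).2) := by
  have h1 : pos (fd (fd2 l i j) j) k = pos (fd2 l i j) k :=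
    pos_fd_le (by rw [fd2_length hij hj]; exact hj) hkj
  rw [← h1, fd_fd2_right hij hj, pos_fd_ge (by omega) hk]

theorem pos_fd2_ge {l : List Pt} {i j k : ℕ} (hij : i ≤ j) (hj : j ≤ l.length) (hk : j ≤ k) :
    pos (fd2 l i j) k = ((pos l k).1 - 2 * ((pos l j).1 - (pos l i).1), (pos l k).2) := by
  have h1 : pos (fd (fd2 l i j) i) k = (2 * (pos (fd2 l i j) i).1 - (pos (fd2 l i j) k).1,
      (pos (fd2 l i j) k).2) :=
    pos_fd_ge (by rw [fd2_length hij hj]; omega) (by omega)
  rw [fd_fd2_left hij hj, pos_fd_ge hj hk, pos_fd2_le hij hj le_rfl] at h1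
  have h2 := congrArg Prod.fst h1
  have h3 := congrArg Prod.snd h1
  simp only at h2 h3
  ext
  · simp only
    linarith
  · exact h3.symm

/-- sign of the last horizontal step before `j` -/
def sgn (l : List Pt) : ℕ → ℝ
  | 0 => 1
  | (j + 1) => if (pos l (j + 1)).1 = (pos l j).1 then sgn l j
      else if (pos l j).1 < (pos l (j + 1)).1 then 1 else -1

theorem sgn_cases (l : List Pt) (j : ℕ) : sgn l j = 1 ∨ sgn l j = -1 := by
  induction j with
  | zero => exact Or.inl rfl
  | succ j ih =>
    unfold sgn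
    split_ifs
    · exact ih
    · exact Or.inl rfl
    · exact Or.inr rfl

theorem sgn_max (l : List Pt) (j : ℕ) (h : ∀ k ≤ j, (pos l k).1 ≤ (pos l j).1) : sgn l j = 1 := by
  induction j with
  | zero => rfl
  | succ j ih =>
    unfold sgn
    split_ifs with h1 h2
    · exact ih fun k hk => by
        rw [← h1]
        exact h k (by omega)
    · rfl
    · exfalso
      have := h j (by omega)
      omega

theorem sgn_fd2 {l : List Pt} {i j : ℕ} (hij : i < j) (hj : j ≤ l.length)
    (hh : (pos l (i + 1)).1 ≠ (pos l i).1) : sgn (fd2 l i j) j = - sgn l j := by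
  have h : ∀ m, i + 1 + m ≤ j → sgn (fd2 l i j) (i + 1 + m) = - sgn l (i + 1 + m) := by
    intro m
    induction m with
    | zero =>
      intro h2
      rw [Nat.add_zero] at h2 ⊢
      have h3 := pos_fd2_mid hij.le hj (show i ≤ i + 1 by omega) h2
      have h4 := pos_fd2_le hij.le hj (le_refl i)
      change (if (pos (fd2 l i j) (i + 1)).1 = (pos (fd2 l i j) i).1 then _ else _) =
        - (if (pos l (i + 1)).1 = (pos l i).1 then _ else _)
      rw [h3, h4]
      simp only
      rw [if_neg (by omega), if_neg hh]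
      split_ifs <;> first | omega | norm_num
    | succ m ih =>
      intro h2
      obtain ⟨k, hk⟩ : ∃ k, k = i + 1 + m := ⟨_, rfl⟩
      have hk1 : i + 1 + (m + 1) = k + 1 := by omega
      have h5 := ih (by omega)
      rw [← hk] at h5
      rw [hk1] at h2 ⊢
      have h3 := pos_fd2_mid hij.le hj (show i ≤ k + 1 by omega) h2
      have h4 := pos_fd2_mid hij.le hj (show i ≤ k by omega) (by omega)
      change (if (pos (fd2 l i j) (k + 1)).1 = (pos (fd2 l i j) k).1 then _ else _) =
        - (if (pos l (k + 1)).1 = (pos l k).1 then _ else _)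
      rw [h3, h4, h5]
      simp only
      split_ifs <;> first | rfl | omega | norm_num
  have h1 := h (j - (i + 1)) (by omega)
  rwa [show i + 1 + (j - (i + 1)) = j by omega] at h1

theorem HR.col_lt {n X T : ℕ} {h : List Pt} (hh : HR n X T h) {k : ℕ} (hk : k ≤ n) :
    (pos h k).1 < T := by
  obtain ⟨v, t, hv, hvn, hc, htn, h1, h2, h3, rfl, h4, h5⟩ := hh
  rcases Nat.le_total k t with h6 | h6
  · rw [pos_fd_le (by omega) h6]
    exact lt_of_le_of_lt (hc.1 k h6) h2
  · rw [pos_fd_ge (by omega) h6]
    simp only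
    rcases Nat.eq_or_lt_of_le h6 with h7 | h7
    · subst h7; omega
    · have := hc.2 k h7 (by omega)
      omega

theorem HR.walk {n X T : ℕ} {h : List Pt} (hh : HR n X T h) : Walk h := by
  obtain ⟨v, t, hv, hvn, hc, htn, h1, h2, h3, rfl, h4, h5⟩ := hh
  exact h4

theorem HR.ray {n X T : ℕ} {h : List Pt} (hh : HR n X T h) :
    ∀ k ≤ n, 0 < k → (pos h k).1 = 0 → 0 < (pos h k).2 := by
  obtain ⟨v, t, hv, hvn, hc, htn, h1, h2, h3, rfl, h4, h5⟩ := hh
  exact h5

theorem Un_fl {s : Pt} (h : Un s) : Un (fl s) := by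
  simpa [Un, fl] using h

/-- The double fold is a bridge. -/
theorem closure {n X T : ℕ} (hX : 1 ≤ X) (hT : T ≤ 2 * X) {w : List Pt} (hw : Bridge w)
    (hn : w.length = n) {i j : ℕ} (hij : i < j) (hjn : j ≤ n)
    (himax : ∀ k ≤ i, (pos w k).1 ≤ (pos w i).1) (hiX : (X : ℤ) ≤ (pos w i).1)
    (hjr : ∀ k, j < k → k ≤ n → (pos w j).1 < (pos w k).1)
    (hjT : (T : ℤ) ≤ (pos w n).1 - (pos w j).1)
    (hi : HR n X T (fd w i)) (hj : HR n X T (fd w j)) : Bridge (fd2 w i j) := by
  have hjl : j ≤ w.length := by omega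
  have hx0 : ∀ k ≤ n, 0 ≤ (pos w k).1 := fun k hk => hw.nonneg (by omega)
  have hxn : ∀ k ≤ n, (pos w k).1 ≤ (pos w n).1 := fun k hk => by
    have := hw.le_end (i := k) (by omega)
    rw [hn] at this
    exact this
  -- columns up to `j` are `< T`
  have hT2 : ∀ k ≤ j, (pos w k).1 < T := by
    intro k hk
    have := hj.col_lt (k := k) (by omega)
    rwa [pos_fd_le hjl hk] at this
  have hle : ∀ k ≤ i, pos (fd2 w i j) k = pos w k := fun k hk => pos_fd2_le hij.le hjl hk
  have hmid : ∀ k, i ≤ k → k ≤ j → pos (fd2 w i j) k =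
      (2 * (pos w i).1 - (pos w k).1, (pos w k).2) := fun k h1 h2 => pos_fd2_mid hij.le hjl h1 h2
  have hge : ∀ k, j ≤ k → pos (fd2 w i j) k =
      ((pos w k).1 - 2 * ((pos w j).1 - (pos w i).1), (pos w k).2) :=
    fun k h1 => pos_fd2_ge hij.le hjl h1
  have hlen : (fd2 w i j).length = n := by rw [fd2_length hij.le hjl, hn]
  have hjT2 := hT2 j le_rfl
  have hiT2 := hT2 i hij.le
  -- `P` and `R'` are disjoint
  have hPR : ∀ k ≤ i, ∀ l ≤ n, j < l → pos (fd2 w i j) k = pos (fd2 w i j) l → False := by
    intro k hk l hl hjl2 heq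
    rw [hle k hk, hge l hjl2.le] at heq
    have h1 := congrArg Prod.fst heq
    have h2 := congrArg Prod.snd heq
    simp only at h1 h2
    have h3 := hjr l hjl2 hl
    have h4 := himax k hk
    rcases le_or_gt (pos w j).1 (pos w i).1 with hd | hd
    · omega
    · have hp0 : pos w 0 = 0 := by simp
      have hjn2 : j < n := by
        rcases Nat.eq_or_lt_of_le hjn with h5 | h5
        · subst h5
          omega
        · exact h5
      refine ray_far n (fun k => (pos w k).1) (fun k => (pos w k).2) ?_ i j hij hjn2 ?_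
        (by simpa [hp0] using hx0)
        himax (fun k hk hjk => hjr k hjk hk) hd (by simp only [hp0, Prod.fst_zero]; omega) ?_ ?_ ?_
        ?_ ?_ k hk l hl hjl2 h1 h2
      · intro m hm
        have h5 := pos_succ w (i := m) (by omega)
        have h6 := hw.1.1 w[m] (List.getElem_mem _)
        unfold US
        simp only
        rw [h5]
        simpa [Un] using h6
      · intro a ha b hb h5 h6
        exact hw.1.2 (Set.mem_Iic.2 (by omega)) (Set.mem_Iic.2 (by omega)) (Prod.ext h5 h6)
      · intro a ha b hb hib h5 h6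
        have h7 : pos (fd w i) a = pos (fd w i) b := by
          rw [pos_fd_le (by omega) ha, pos_fd_ge (by omega) hib.le]
          exact Prod.ext h5 h6
        have h8 := hi.walk.2 (Set.mem_Iic.2 (by rw [fd_length]; omega))
          (Set.mem_Iic.2 (by rw [fd_length]; omega)) h7
        omega
      · intro a ha b hb hjb h5 h6
        have h7 : pos (fd w j) a = pos (fd w j) b := by
          rw [pos_fd_le hjl ha, pos_fd_ge hjl hjb.le]
          exact Prod.ext h5 h6
        have h8 := hj.walk.2 (Set.mem_Iic.2 (by rw [fd_length]; omega))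
          (Set.mem_Iic.2 (by rw [fd_length]; omega)) h7
        omega
      · intro h5
        simp only [hp0, Prod.fst_zero] at h5
        omega
      · intro b hb hib h5
        have h6 := hi.ray b hb (by omega)
        rw [pos_fd_ge (by omega) hib.le] at h6
        simp only [hp0, Prod.fst_zero, Prod.snd_zero] at h5 ⊢
        exact h6 h5
      · intro b hb hjb h5
        have h6 := hj.ray b hb (by omega)
        rw [pos_fd_ge hjl hjb.le] at h6
        simp only [hp0, Prod.fst_zero, Prod.snd_zero] at h5 ⊢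
        exact h6 h5
  -- injectivity
  have hinj : ∀ k l, k < l → l ≤ n → pos (fd2 w i j) k ≠ pos (fd2 w i j) l := by
    intro k l hkl hl heq
    rcases Nat.le_total l j with h1 | h1
    · have h2 : fd (fd2 w i j) j = fd w i := fd_fd2_right hij.le hjl
      have h3 : pos (fd w i) k = pos (fd w i) l := by
        rw [← h2, pos_fd_le (by rw [hlen]; omega) (by omega), pos_fd_le (by rw [hlen]; omega) h1,
          heq]
      have h4 := hi.walk.2 (Set.mem_Iic.2 (by rw [fd_length]; omega))
          (Set.mem_Iic.2 (by rw [fd_length]; omega)) h3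
      omega
    · rcases Nat.le_total i k with h5 | h5
      · have h2 : fd (fd2 w i j) i = fd w j := fd_fd2_left hij.le hjl
        have h3 : pos (fd w j) k = pos (fd w j) l := by
          rw [← h2, pos_fd_ge (by rw [hlen]; omega) h5, pos_fd_ge (by rw [hlen]; omega) (by omega),
            heq]
        have h4 := hj.walk.2 (Set.mem_Iic.2 (by rw [fd_length]; omega))
            (Set.mem_Iic.2 (by rw [fd_length]; omega)) h3
        omega
      · rcases Nat.eq_or_lt_of_le h1 with h6 | h6
        · subst h6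
          have h2 : fd (fd2 w i j) j = fd w i := fd_fd2_right hij.le hjl
          have h3 : pos (fd w i) k = pos (fd w i) j := by
            rw [← h2, pos_fd_le (by rw [hlen]; omega) (by omega),
              pos_fd_le (by rw [hlen]; omega) le_rfl, heq]
          have h4 := hi.walk.2 (Set.mem_Iic.2 (by rw [fd_length]; omega))
              (Set.mem_Iic.2 (by rw [fd_length]; omega)) h3
          omega
        · exact hPR k h5 l hl h6 heq
  refine ⟨⟨?_, ?_⟩, ?_⟩
  · intro s hs
    unfold fd2 at hs
    rcases List.mem_append.1 hs with h1 | h1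
    · exact hw.1.1 s (List.mem_of_mem_take h1)
    · rcases List.mem_append.1 h1 with h2 | h2
      · obtain ⟨s', hs', rfl⟩ := List.mem_map.1 h2
        exact Un_fl (hw.1.1 s' (List.mem_of_mem_drop (List.mem_of_mem_take hs')))
      · exact hw.1.1 s (List.mem_of_mem_drop h2)
  · intro a ha b hb hab
    rw [Set.mem_Iic, hlen] at ha hb
    rcases Nat.lt_trichotomy a b with h1 | h1 | h1
    · exact absurd hab (hinj a b h1 hb)
    · exact h1
    · exact absurd hab.symm (hinj b a h1 ha)
  · intro k h0 hk
    rw [hlen] at hk ⊢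
    have hend := hge n hjn
    rw [hend]
    simp only
    have hwn : ∀ k, 0 < k → k ≤ n → 0 < (pos w k).1 := fun k h1 h2 =>
      (hw.2 k h1 (by omega)).1
    rcases Nat.le_total k i with h1 | h1
    · rw [hle k h1]
      have h2 := hwn k h0 hk
      have h3 := himax k h1
      constructor
      · exact h2
      · omega
    · rcases Nat.le_total k j with h2 | h2
      · rw [hmid k h1 h2]
        simp only
        have h3 := hT2 k h2
        have h4 := hx0 k hk
        constructor <;> omega
      · rw [hge k h2]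
        simp only
        have h3 := hxn k hk
        rcases Nat.eq_or_lt_of_le h2 with h4 | h4
        · subst h4
          constructor <;> omega
        · have h5 := hjr k h4 hk
          constructor <;> omega

open Classical in
/-- marks of type R -/
noncomputable def RM (n X T : ℕ) (w : List Pt) : Finset ℕ := (Finset.range n).filter fun i =>
  (∀ k ≤ i, (pos w k).1 ≤ (pos w i).1) ∧ (pos w (i + 1)).1 ≠ (pos w i).1 ∧
    (X : ℤ) ≤ (pos w i).1 ∧ HR n X T (fd w i)

open Classical in
/-- marks of type L -/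
noncomputable def LM (n X T : ℕ) (w : List Pt) : Finset ℕ := (Finset.range (n + 1)).filter fun j =>
  (∀ k, j < k → k ≤ n → (pos w j).1 < (pos w k).1) ∧
    (T : ℤ) ≤ (pos w n).1 - (pos w j).1 ∧ HR n X T (fd w j)

theorem finite_walk (n : ℕ) : {l : List Pt | Walk l ∧ l.length = n}.Finite := by
  have : Finite ({l : List Pt | Walk l ∧ l.length = n} : Set (List Pt)) := walkLenFinite n
  exact Set.toFinite _

theorem finite_HR (n X T : ℕ) : {h : List Pt | HR n X T h}.Finite := by
  have h1 : {l : List Pt | Walk l ∧ l.length = n}.Finite := finite_walk n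
  refine h1.subset ?_
  rintro h hh
  refine ⟨hh.walk, ?_⟩
  obtain ⟨v, t, hv, hvn, hc, htn, h1, h2, h3, rfl, h4, h5⟩ := hh
  rw [fd_length, hvn]

theorem finite_BR (n : ℕ) : {l : List Pt | Bridge l ∧ l.length = n}.Finite := by
  have h1 : {l : List Pt | Walk l ∧ l.length = n}.Finite := finite_walk n
  exact h1.subset fun l hl => ⟨hl.1.1, hl.2⟩

open Classical in
/-- Theorem FM. -/
theorem fm (n X T : ℕ) (hX : 1 ≤ X) (_hT0 : 1 ≤ T) (hT : T ≤ 2 * X) : ∃ g : List Pt → List Pt,
    Set.InjOn g {h | HR n X T h} ∧ ∀ h, HR n X T h → Bridge (g h) ∧ (g h).length = n ∧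
      ∃ i ≤ n, fd (g h) i = h ∧ ∀ k ≤ i, (pos (g h) k).1 ≤ (pos (g h) i).1 := by
  have hO : ∀ h, h ∈ (finite_HR n X T).toFinset ↔ HR n X T h := fun h => by simp
  have hE : ∀ w, w ∈ (finite_BR n).toFinset ↔ Bridge w ∧ w.length = n := fun w => by simp
  have hR : ∀ w i, i ∈ RM n X T w ↔ i < n ∧ (∀ k ≤ i, (pos w k).1 ≤ (pos w i).1) ∧
      (pos w (i + 1)).1 ≠ (pos w i).1 ∧ (X : ℤ) ≤ (pos w i).1 ∧ HR n X T (fd w i) := by
    intro w i
    unfold RM
    rw [Finset.mem_filter, Finset.mem_range]
  have hL : ∀ w j, j ∈ LM n X T w ↔ j ≤ n ∧ (∀ k, j < k → k ≤ n → (pos w j).1 < (pos w k).1) ∧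
      (T : ℤ) ≤ (pos w n).1 - (pos w j).1 ∧ HR n X T (fd w j) := by
    intro w j
    unfold LM
    rw [Finset.mem_filter, Finset.mem_range, Nat.lt_succ_iff]
  -- the unfolding
  have hex : ∀ h, HR n X T h → ∃ v t, Bridge v ∧ v.length = n ∧ Cut v t ∧ t ≤ n ∧
      (X : ℤ) ≤ (pos v t).1 ∧ (pos v t).1 < T ∧ (T : ℤ) ≤ (pos v n).1 - (pos v t).1 ∧
      h = fd v t ∧ Walk h ∧ ∀ k ≤ n, 0 < k → (pos h k).1 = 0 → 0 < (pos h k).2 := fun h hh => hh
  choose! u t hut using hex
  have hF : Pool.Agent.Work.MP_376faf_co_log.FSys (finite_HR n X T).toFinset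
      (finite_BR n).toFinset (RM n X T) (LM n X T) fd sgn fd2 u t := by
    refine ⟨?_, ?_, ?_, ?_, ?_⟩
    · intro w hw i hi j hj hij
      rw [hE] at hw
      rw [hR] at hi
      rw [hL] at hj
      obtain ⟨hwb, hwn⟩ := hw
      obtain ⟨hin, himax, hih, hiX, hiH⟩ := hi
      obtain ⟨hjn, hjr, hjT, hjH⟩ := hj
      have hjl : j ≤ w.length := by omega
      have hbr := closure hX hT hwb hwn hij hjn himax hiX hjr hjT hiH hjH
      have hlen : (fd2 w i j).length = n := by rw [fd2_length hij.le hjl, hwn]
      have e1 := fd_fd2_left hij.le hjl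
      have e2 := fd_fd2_right hij.le hjl
      refine ⟨(hE _).2 ⟨hbr, hlen⟩, (hR _ _).2 ⟨hin, ?_, ?_, ?_, ?_⟩, (hL _ _).2 ⟨hjn, ?_, ?_, ?_⟩,
        fd2_fd2 hij.le hjl, e1, e2, sgn_fd2 hij hjl hih⟩
      · intro k hk
        rw [pos_fd2_le hij.le hjl hk, pos_fd2_le hij.le hjl le_rfl]
        exact himax k hk
      · rw [pos_fd2_mid hij.le hjl (by omega) (by omega), pos_fd2_le hij.le hjl le_rfl]
        simp only
        omega
      · rw [pos_fd2_le hij.le hjl le_rfl]
        exact hiX
      · rw [e1]
        exact hjH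
      · intro k hk hkn
        rw [pos_fd2_ge hij.le hjl hk.le, pos_fd2_ge hij.le hjl le_rfl]
        simp only
        have := hjr k hk hkn
        omega
      · rw [pos_fd2_ge hij.le hjl hjn, pos_fd2_ge hij.le hjl le_rfl]
        simp only
        omega
      · rw [e2]
        exact hiH
    · intro w _ j _
      rcases sgn_cases w j with h | h <;> rw [h] <;> norm_num
    · intro w _ j _
      rcases sgn_cases w j with h | h <;> rw [h] <;> norm_num
    · intro w _ i hi _
      rw [hR] at hi
      exact sgn_max w i hi.2.1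
    · intro h hh
      rw [hO] at hh
      obtain ⟨hv, hvn, hc, htn, h1, h2, h3, h4, h5, h6⟩ := hut h hh
      have htn2 : t h < n := by
        rcases Nat.eq_or_lt_of_le htn with h7 | h7
        · rw [h7] at h3
          omega
        · exact h7
      refine ⟨(hE _).2 ⟨hv, hvn⟩, (hR _ _).2 ⟨htn2, hc.1, ?_, h1, ?_⟩, (hL _ _).2 ⟨htn, ?_, h3, ?_⟩,
        h4.symm⟩
      · exact (hc.2 (t h + 1) (by omega) (by omega)).ne'
      · rw [← h4]
        exact hh
      · intro k hk hkn
        exact hc.2 k hk (by omega)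
      · rw [← h4]
        exact hh
  obtain ⟨g, hg1, hg2⟩ := Pool.Agent.Work.MP_376faf_co_log.ferm_inj hF
  refine ⟨g, ?_, ?_⟩
  · intro a ha b hb hab
    exact hg1 (by simpa using ha) (by simpa using hb) hab
  · intro h hh
    obtain ⟨h1, i, hi, h2⟩ := hg2 h ((hO h).2 hh)
    rw [hE] at h1
    rw [hR] at hi
    exact ⟨h1.1, h1.2, i, hi.1.le, h2, hi.2.1⟩

end Pool.Agent.Work.MP_376faf_co_poly
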