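import Pool.Agent.Work.MP_376faf_co_neps.HalfE

/-! Module HalfL: half-plane walks from `V ≤ c (i + 1) ^ a U` at the scale `2 ^ i`
(cf. `neps/HalfE.lean`). -/

set_option autoImplicit false

namespace Pool.Agent.Work.MP_376faf_co_poly

open Pool.Agent.Work.MP_376faf_co_lower Pool.Agent.Work.MP_376faf_co_hw
open Pool.Agent.Work.MP_376faf_co_neps
open scoped ENNReal

theorem half_l (a : ℕ) (ha : 1 ≤ a) {c : ℝ} (hc0 : 0 ≤ c) : ∃ C : ℝ, 1 ≤ C ∧ ∀ (μ : ℝ), 1 ≤ μ →
    (∀ t, uu (ENNReal.ofReal μ)⁻¹ t ≤ 1) →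
    (∀ i : ℕ, VV (ENNReal.ofReal μ)⁻¹ (zN (2 ^ i)) ≤
      ENNReal.ofReal c * (((i + 1) ^ a : ℕ) : ℝ≥0∞) * UU (ENNReal.ofReal μ)⁻¹ (zN (2 ^ i))) →
    ∀ (m n k : ℕ), 1 ≤ m → m ≤ 2 ^ k → ∀ (y : ℝ≥0∞),
    (∀ l < m, y ^ l ≤ 2 * (ENNReal.ofReal μ)⁻¹ ^ l) →
    ∑ T ∈ Finset.range n, mass y (LoB m n (T + 1)) ≤ ((2 ^ k : ℝ≥0∞) ^ 3)⁻¹ →
    mass y (fun l => Half l ∧ l.length ≤ n) ≤
      ENNReal.ofReal (Real.exp (C * ((k : ℝ) + 1) ^ (2 * a + 1))) := by
  refine ⟨5 + 96 * c + (32 * c) ^ 2, ?_, ?_⟩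
  · have : 0 ≤ (32 * c) ^ 2 := by positivity
    linarith
  intro μ hμ hu hV m n k hm hk y hy hL
  set A : ℕ := (k + 1) ^ a with hAdef
  have hA : 1 ≤ A := Nat.one_le_pow _ _ (by omega)
  have hA1 : (1:ℝ) ≤ A := by exact_mod_cast hA
  have hkA : (k:ℝ) + 1 ≤ A := by
    have : k + 1 ≤ A := by
      calc k + 1 = (k + 1) ^ 1 := (pow_one _).symm
        _ ≤ (k + 1) ^ a := Nat.pow_le_pow_right (by omega) ha
    exact_mod_cast this
  set B : ℝ := k + 1 + 32 * c * A + (2 + 64 * c * A + (32 * c * A) ^ 2) with hB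
  have hB0 : 0 ≤ B := by positivity
  -- the blocks
  have hblk : ∀ i ≤ k, mass y (HL n (2 ^ i - 1)) ≤ ENNReal.ofReal (Real.exp (i * B)) := by
    intro i
    induction i with
    | zero =>
      intro _
      simpa using HL_zero_le y n
    | succ i ih =>
      intro hi
      have h1 : VV (ENNReal.ofReal μ)⁻¹ (zN (2 ^ i)) ≤
          ENNReal.ofReal c * (A : ℝ≥0∞) * UU (ENNReal.ofReal μ)⁻¹ (zN (2 ^ i)) := by
        refine (hV i).trans ?_
        have h0 : (i + 1) ^ a ≤ A := Nat.pow_le_pow_left (by omega) a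
        gcongr
      refine (block_num hu hc0 (show i < k by omega) hA h1 hy hL).trans ?_
      calc mass y (HL n (2 ^ i - 1)) * ENNReal.ofReal (Real.exp B)
          ≤ ENNReal.ofReal (Real.exp (i * B)) * ENNReal.ofReal (Real.exp B) := by
            gcongr
            exact ih (by omega)
        _ = _ := by
            rw [← ENNReal.ofReal_mul (Real.exp_pos _).le, ← Real.exp_add]
            congr 2
            push_cast
            ring
  -- the long part
  have h2k : 1 ≤ 2 ^ k := Nat.one_le_two_pow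
  have h3 : mass y (fun l => Half l ∧ l.length ≤ n) ≤ mass y (HL n (max (2 ^ k - 1) n)) :=
    mass_mono y fun l hl => half_HL (le_max_right _ _) hl
  have h4 := hw_long (y := y) (m := m) (n := n) (M := 2 ^ k - 1) (M' := max (2 ^ k - 1) n)
    (by omega) (le_max_left _ _)
  have hL1 : ∑ T ∈ Finset.range n, mass y (LoB m n (T + 1)) ≤ 1 := by
    refine hL.trans (ENNReal.inv_le_one.2 ?_)
    exact one_le_pow₀ (one_le_pow₀ (by norm_num))
  have h5 : ∏ T ∈ Finset.Ico (2 ^ k - 1) (max (2 ^ k - 1) n), (1 + mass y (LoB m n (T + 1))) ≤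
      ENNReal.ofReal (Real.exp 1) :=
    prod_exp zero_le_one (by
      rw [ENNReal.ofReal_one]
      exact lo_sum hL1 _)
  calc mass y (fun l => Half l ∧ l.length ≤ n)
      ≤ ENNReal.ofReal (Real.exp (k * B)) * ENNReal.ofReal (Real.exp 1) :=
        (h3.trans h4).trans (mul_le_mul' (hblk k le_rfl) h5)
    _ = ENNReal.ofReal (Real.exp (k * B + 1)) := by
        rw [← ENNReal.ofReal_mul (Real.exp_pos _).le, ← Real.exp_add]
    _ ≤ _ := by
        refine ENNReal.ofReal_le_ofReal (Real.exp_le_exp.2 ?_)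
        have hk0 : (0:ℝ) ≤ k := Nat.cast_nonneg k
        set Sr : ℝ := (k:ℝ) + 1 with hS
        have hS1 : 1 ≤ Sr := by linarith
        have hAS : (A:ℝ) = Sr ^ a := by rw [hAdef]; push_cast; rfl
        have hAA : (A:ℝ) ≤ A ^ 2 := by nlinarith
        have hA2 : (1:ℝ) ≤ A ^ 2 := by nlinarith
        have e1 : B ≤ (4 + 96 * c + (32 * c) ^ 2) * A ^ 2 := by
          have t2 : 96 * c * A ≤ 96 * c * A ^ 2 := by gcongr
          calc B = k + 1 + 2 + 96 * c * A + (32 * c) ^ 2 * A ^ 2 := by rw [hB]; ring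
            _ ≤ A ^ 2 + 2 * A ^ 2 + 96 * c * A ^ 2 + (32 * c) ^ 2 * A ^ 2 := by
                have : (2:ℝ) ≤ 2 * A ^ 2 := by linarith
                linarith
            _ ≤ _ := by nlinarith
        have e2 : k * B ≤ Sr * ((4 + 96 * c + (32 * c) ^ 2) * A ^ 2) := by
          gcongr
          linarith
        have e3 : (1:ℝ) ≤ Sr * A ^ 2 := by nlinarith
        calc k * B + 1 ≤ Sr * ((4 + 96 * c + (32 * c) ^ 2) * A ^ 2) + Sr * A ^ 2 := by
              linarith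
          _ = (5 + 96 * c + (32 * c) ^ 2) * (Sr * (Sr ^ a) ^ 2) := by rw [hAS]; ring
          _ = (5 + 96 * c + (32 * c) ^ 2) * Sr ^ (2 * a + 1) := by
              congr 1
              rw [← pow_mul, ← pow_succ']
              congr 1
              ring

end Pool.Agent.Work.MP_376faf_co_poly
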