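import Pool.Agent.Work.MP_376faf_co_poly.FM

/-! Theorem FM with two rays: hairpins with the first arm in `[X1, T1)`, the second arm in
`[X2, T2)`, the vertical half-lines below the start and above the end are free.  Injection to the
bridges if the window is narrow (`Win`). -/

set_option autoImplicit false

namespace Pool.Agent.Work.MP_376faf_co_poly

open Pool.Agent.Work.MP_376faf_co_lower Pool.Agent.Work.MP_376faf_co_hw
open Pool.Agent.Work.MP_376faf_co_neps.Abs (US)

/-- narrow windows -/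
def Win (X1 T1 X2 T2 : ℕ) : Prop := 1 ≤ X1 ∧ 1 ≤ X2 ∧
  ((T1 ≤ 2 * X1 ∧ 2 * T1 ≤ 2 * X1 + X2 + 2 ∧ T1 ≤ X1 + X2 + 1) ∨
    (T2 ≤ 2 * X2 + 1 ∧ 2 * T2 < X1 + 2 * X2 + 2))

/-- hairpins `h = fd v t`: `v` a bridge with `n` steps, `t` a renewal, first arm in `[X1, T1)`,
second arm in `[X2, T2)`, self-avoiding, both rays free -/
def HQ (n X1 T1 X2 T2 : ℕ) (h : List Pt) : Prop := ∃ v t, Bridge v ∧ v.length = n ∧ Cut v t ∧
  t ≤ n ∧ (X1 : ℤ) ≤ (pos v t).1 ∧ (pos v t).1 < T1 ∧ (X2 : ℤ) ≤ (pos v n).1 - (pos v t).1 ∧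
  (pos v n).1 - (pos v t).1 < T2 ∧ h = fd v t ∧ Walk h ∧
  (∀ k ≤ n, 0 < k → (pos h k).1 = 0 → 0 < (pos h k).2) ∧
  ∀ k < n, (pos h k).1 = (pos h n).1 → (pos h k).2 < (pos h n).2

theorem HQ.walk {n X1 T1 X2 T2 : ℕ} {h : List Pt} (hh : HQ n X1 T1 X2 T2 h) : Walk h := by
  obtain ⟨v, t, _, _, _, _, _, _, _, _, _, h4, _⟩ := hh
  exact h4

theorem HQ.ray {n X1 T1 X2 T2 : ℕ} {h : List Pt} (hh : HQ n X1 T1 X2 T2 h) :
    ∀ k ≤ n, 0 < k → (pos h k).1 = 0 → 0 < (pos h k).2 := by
  obtain ⟨v, t, _, _, _, _, _, _, _, _, _, _, h5, _⟩ := hh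
  exact h5

theorem HQ.ray2 {n X1 T1 X2 T2 : ℕ} {h : List Pt} (hh : HQ n X1 T1 X2 T2 h) :
    ∀ k < n, (pos h k).1 = (pos h n).1 → (pos h k).2 < (pos h n).2 := by
  obtain ⟨v, t, _, _, _, _, _, _, _, _, _, _, _, h6⟩ := hh
  exact h6

/-- columns -/
theorem HQ.col {n X1 T1 X2 T2 : ℕ} {h : List Pt} (hh : HQ n X1 T1 X2 T2 h) {k : ℕ} (hk : k ≤ n) :
    (pos h k).1 < T1 ∧ (pos h k).1 - (pos h n).1 < T2 := by
  obtain ⟨v, t, hv, hvn, hc, htn, h1, h2, h3, h4, rfl, h5, h6, h7⟩ := hh
  have he : (pos (fd v t) n).1 = 2 * (pos v t).1 - (pos v n).1 := by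
    rw [pos_fd_ge (by omega) htn]
  rw [he]
  rcases Nat.le_total k t with h6 | h6
  · rw [pos_fd_le (by omega) h6]
    have := hc.1 k h6
    omega
  · rw [pos_fd_ge (by omega) h6]
    simp only
    rcases Nat.eq_or_lt_of_le h6 with h7 | h7
    · subst h7; omega
    · have := hc.2 k h7 (by omega)
      omega

/-- The double fold is a bridge. -/
theorem closure2 {n X1 T1 X2 T2 : ℕ} (hW : Win X1 T1 X2 T2) {w : List Pt} (hw : Bridge w)
    (hn : w.length = n) {i j : ℕ} (hij : i < j) (hjn : j ≤ n)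
    (himax : ∀ k ≤ i, (pos w k).1 ≤ (pos w i).1) (hiX : (X1 : ℤ) ≤ (pos w i).1)
    (hjr : ∀ k, j < k → k ≤ n → (pos w j).1 < (pos w k).1)
    (hjT : (X2 : ℤ) ≤ (pos w n).1 - (pos w j).1)
    (hi : HQ n X1 T1 X2 T2 (fd w i)) (hj : HQ n X1 T1 X2 T2 (fd w j)) : Bridge (fd2 w i j) := by
  obtain ⟨hX1, hX2, hWin⟩ := hW
  have hjl : j ≤ w.length := by omega
  have hx0 : ∀ k ≤ n, 0 ≤ (pos w k).1 := fun k hk => hw.nonneg (by omega)
  have hxn : ∀ k ≤ n, (pos w k).1 ≤ (pos w n).1 := fun k hk => by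
    have := hw.le_end (i := k) (by omega)
    rw [hn] at this
    exact this
  have hjL : ∀ k ≤ j, (pos w k).1 < T1 ∧ (pos w k).1 - 2 * (pos w j).1 + (pos w n).1 < T2 := by
    intro k hk
    have := hj.col (k := k) (by omega)
    rw [pos_fd_le hjl hk, pos_fd_ge hjl hjn] at this
    simp only at this
    omega
  have hiR : ∀ k, i ≤ k → k ≤ n → 2 * (pos w i).1 - (pos w k).1 < T1 ∧
      (pos w n).1 - (pos w k).1 < T2 := by
    intro k hk hkn
    have := hi.col (k := k) hkn
    rw [pos_fd_ge (by omega) hk, pos_fd_ge (by omega) (by omega)] at this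
    simp only at this
    omega
  have hle : ∀ k ≤ i, pos (fd2 w i j) k = pos w k := fun k hk => pos_fd2_le hij.le hjl hk
  have hmid : ∀ k, i ≤ k → k ≤ j → pos (fd2 w i j) k =
      (2 * (pos w i).1 - (pos w k).1, (pos w k).2) := fun k h1 h2 => pos_fd2_mid hij.le hjl h1 h2
  have hge : ∀ k, j ≤ k → pos (fd2 w i j) k =
      ((pos w k).1 - 2 * ((pos w j).1 - (pos w i).1), (pos w k).2) :=
    fun k h1 => pos_fd2_ge hij.le hjl h1
  have hlen : (fd2 w i j).length = n := by rw [fd2_length hij.le hjl, hn]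
  have hjj := hjL j le_rfl
  have hji := hjL i hij.le
  have hij2 := hiR j hij.le hjn
  have hii := hiR i le_rfl (by omega)
  -- `P` and `R'` are disjoint
  have hPR : ∀ k ≤ i, ∀ l ≤ n, j < l → pos (fd2 w i j) k = pos (fd2 w i j) l → False := by
    intro k hk l hl hjl2 heq
    rw [hle k hk, hge l hjl2.le] at heq
    have h1 := congrArg Prod.fst heq
    have h2 := congrArg Prod.snd heq
    simp only at h1 h2
    have h3 := hjr l hjl2 hl
    have h4 := himax k hk
    rcases le_or_gt (pos w j).1 (pos w i).1 with hd | hd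
    · omega
    · have hp0 : pos w 0 = 0 := by simp
      have hjn2 : j < n := by
        rcases Nat.eq_or_lt_of_le hjn with h5 | h5
        · subst h5
          omega
        · exact h5
      refine (ray_gen n (fun k => (pos w k).1) (fun k => (pos w k).2) ?_ i j hij hjn2 ?_
        himax (fun k hk hjk => hjr k hjk hk) hd ?_ ?_ ?_
        ?_ ?_ ?_ ?_).1 k hk l hl hjl2 h1 h2
      · intro m hm
        have h5 := pos_succ w (i := m) (by omega)
        have h6 := hw.1.1 w[m] (List.getElem_mem _)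
        unfold US
        simp only
        rw [h5]
        simpa [Un] using h6
      · intro a ha b hb h5 h6
        exact hw.1.2 (Set.mem_Iic.2 (by omega)) (Set.mem_Iic.2 (by omega)) (Prod.ext h5 h6)
      · intro a ha b hb hib h5 h6
        have h7 : pos (fd w i) a = pos (fd w i) b := by
          rw [pos_fd_le (by omega) ha, pos_fd_ge (by omega) hib.le]
          exact Prod.ext h5 h6
        have h8 := hi.walk.2 (Set.mem_Iic.2 (by rw [fd_length]; omega))
          (Set.mem_Iic.2 (by rw [fd_length]; omega)) h7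
        omega
      · intro a ha b hb hjb h5 h6
        have h7 : pos (fd w j) a = pos (fd w j) b := by
          rw [pos_fd_le hjl ha, pos_fd_ge hjl hjb.le]
          exact Prod.ext h5 h6
        have h8 := hj.walk.2 (Set.mem_Iic.2 (by rw [fd_length]; omega))
          (Set.mem_Iic.2 (by rw [fd_length]; omega)) h7
        omega
      · intro h5
        simp only [hp0, Prod.fst_zero] at h5
        omega
      · intro b hb hib h5
        have h6 := hi.ray b hb (by omega)
        rw [pos_fd_ge (by omega) hib.le] at h6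
        simp only [hp0, Prod.fst_zero, Prod.snd_zero] at h5 ⊢
        exact h6 h5
      · intro b hb hjb h5
        have h6 := hj.ray b hb (by omega)
        rw [pos_fd_ge hjl hjb.le] at h6
        simp only [hp0, Prod.fst_zero, Prod.snd_zero] at h5 ⊢
        exact h6 h5
      · intro a ha h5
        have h6 := hi.ray2 a (by omega)
        rw [pos_fd_le (by omega) ha, pos_fd_ge (by omega) (by omega)] at h6
        exact h6 h5
      · intro a ha h5
        have h6 := hj.ray2 a (by omega)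
        rw [pos_fd_le hjl ha, pos_fd_ge hjl hjn] at h6
        exact h6 h5
  -- injectivity
  have hinj : ∀ k l, k < l → l ≤ n → pos (fd2 w i j) k ≠ pos (fd2 w i j) l := by
    intro k l hkl hl heq
    rcases Nat.le_total l j with h1 | h1
    · have h2 : fd (fd2 w i j) j = fd w i := fd_fd2_right hij.le hjl
      have h3 : pos (fd w i) k = pos (fd w i) l := by
        rw [← h2, pos_fd_le (by rw [hlen]; omega) (by omega), pos_fd_le (by rw [hlen]; omega) h1,
          heq]
      have h4 := hi.walk.2 (Set.mem_Iic.2 (by rw [fd_length]; omega))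
          (Set.mem_Iic.2 (by rw [fd_length]; omega)) h3
      omega
    · rcases Nat.le_total i k with h5 | h5
      · have h2 : fd (fd2 w i j) i = fd w j := fd_fd2_left hij.le hjl
        have h3 : pos (fd w j) k = pos (fd w j) l := by
          rw [← h2, pos_fd_ge (by rw [hlen]; omega) h5, pos_fd_ge (by rw [hlen]; omega) (by omega),
            heq]
        have h4 := hj.walk.2 (Set.mem_Iic.2 (by rw [fd_length]; omega))
            (Set.mem_Iic.2 (by rw [fd_length]; omega)) h3
        omega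
      · rcases Nat.eq_or_lt_of_le h1 with h6 | h6
        · subst h6
          have h2 : fd (fd2 w i j) j = fd w i := fd_fd2_right hij.le hjl
          have h3 : pos (fd w i) k = pos (fd w i) j := by
            rw [← h2, pos_fd_le (by rw [hlen]; omega) (by omega),
              pos_fd_le (by rw [hlen]; omega) le_rfl, heq]
          have h4 := hi.walk.2 (Set.mem_Iic.2 (by rw [fd_length]; omega))
              (Set.mem_Iic.2 (by rw [fd_length]; omega)) h3
          omega
        · exact hPR k h5 l hl h6 heq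
  refine ⟨⟨?_, ?_⟩, ?_⟩
  · intro s hs
    unfold fd2 at hs
    rcases List.mem_append.1 hs with h1 | h1
    · exact hw.1.1 s (List.mem_of_mem_take h1)
    · rcases List.mem_append.1 h1 with h2 | h2
      · obtain ⟨s', hs', rfl⟩ := List.mem_map.1 h2
        exact Un_fl (hw.1.1 s' (List.mem_of_mem_drop (List.mem_of_mem_take hs')))
      · exact hw.1.1 s (List.mem_of_mem_drop h2)
  · intro a ha b hb hab
    rw [Set.mem_Iic, hlen] at ha hb
    rcases Nat.lt_trichotomy a b with h1 | h1 | h1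
    · exact absurd hab (hinj a b h1 hb)
    · exact h1
    · exact absurd hab.symm (hinj b a h1 ha)
  · intro k h0 hk
    rw [hlen] at hk ⊢
    have hend := hge n hjn
    rw [hend]
    simp only
    have hwn : ∀ k, 0 < k → k ≤ n → 0 < (pos w k).1 := fun k h1 h2 =>
      (hw.2 k h1 (by omega)).1
    rcases Nat.le_total k i with h1 | h1
    · rw [hle k h1]
      have h2 := hwn k h0 hk
      have h3 := himax k h1
      constructor
      · exact h2
      · omega
    · rcases Nat.le_total k j with h2 | h2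
      · rw [hmid k h1 h2]
        simp only
        have h3 := hjL k h2
        have h4 := hiR k h1 hk
        constructor <;> omega
      · rw [hge k h2]
        simp only
        have h3 := hxn k hk
        rcases Nat.eq_or_lt_of_le h2 with h4 | h4
        · subst h4
          constructor <;> omega
        · have h5 := hjr k h4 hk
          constructor <;> omega

open Classical in
/-- marks of type R -/
noncomputable def RM2 (n X1 T1 X2 T2 : ℕ) (w : List Pt) : Finset ℕ := (Finset.range n).filter fun i =>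
  (∀ k ≤ i, (pos w k).1 ≤ (pos w i).1) ∧ (pos w (i + 1)).1 ≠ (pos w i).1 ∧
    (X1 : ℤ) ≤ (pos w i).1 ∧ HQ n X1 T1 X2 T2 (fd w i)

open Classical in
/-- marks of type L -/
noncomputable def LM2 (n X1 T1 X2 T2 : ℕ) (w : List Pt) : Finset ℕ := (Finset.range (n + 1)).filter fun j =>
  (∀ k, j < k → k ≤ n → (pos w j).1 < (pos w k).1) ∧
    (X2 : ℤ) ≤ (pos w n).1 - (pos w j).1 ∧ HQ n X1 T1 X2 T2 (fd w j)

theorem finite_HQ (n X1 T1 X2 T2 : ℕ) : {h : List Pt | HQ n X1 T1 X2 T2 h}.Finite := by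
  have h1 : {l : List Pt | Walk l ∧ l.length = n}.Finite := finite_walk n
  refine h1.subset ?_
  rintro h hh
  refine ⟨hh.walk, ?_⟩
  obtain ⟨v, t, hv, hvn, hc, htn, h1, h2, h3, h4, rfl, h5, h6, h7⟩ := hh
  rw [fd_length, hvn]

open Classical in
/-- Theorem FM, two rays. -/
theorem fm2 (n X1 T1 X2 T2 : ℕ) (hW : Win X1 T1 X2 T2) : ∃ g : List Pt → List Pt,
    Set.InjOn g {h | HQ n X1 T1 X2 T2 h} ∧ ∀ h, HQ n X1 T1 X2 T2 h → Bridge (g h) ∧ (g h).length = n ∧
      ∃ i ≤ n, fd (g h) i = h ∧ ∀ k ≤ i, (pos (g h) k).1 ≤ (pos (g h) i).1 := by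
  have hO : ∀ h, h ∈ (finite_HQ n X1 T1 X2 T2).toFinset ↔ HQ n X1 T1 X2 T2 h := fun h => by simp
  have hE : ∀ w, w ∈ (finite_BR n).toFinset ↔ Bridge w ∧ w.length = n := fun w => by simp
  have hR : ∀ w i, i ∈ RM2 n X1 T1 X2 T2 w ↔ i < n ∧ (∀ k ≤ i, (pos w k).1 ≤ (pos w i).1) ∧
      (pos w (i + 1)).1 ≠ (pos w i).1 ∧ (X1 : ℤ) ≤ (pos w i).1 ∧ HQ n X1 T1 X2 T2 (fd w i) := by
    intro w i
    unfold RM2
    rw [Finset.mem_filter, Finset.mem_range]
  have hL : ∀ w j, j ∈ LM2 n X1 T1 X2 T2 w ↔ j ≤ n ∧ (∀ k, j < k → k ≤ n → (pos w j).1 < (pos w k).1) ∧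
      (X2 : ℤ) ≤ (pos w n).1 - (pos w j).1 ∧ HQ n X1 T1 X2 T2 (fd w j) := by
    intro w j
    unfold LM2
    rw [Finset.mem_filter, Finset.mem_range, Nat.lt_succ_iff]
  -- the unfolding
  have hex : ∀ h, HQ n X1 T1 X2 T2 h → ∃ v t, Bridge v ∧ v.length = n ∧ Cut v t ∧ t ≤ n ∧
      (X1 : ℤ) ≤ (pos v t).1 ∧ (pos v t).1 < T1 ∧ (X2 : ℤ) ≤ (pos v n).1 - (pos v t).1 ∧
      (pos v n).1 - (pos v t).1 < T2 ∧
      h = fd v t ∧ Walk h ∧ (∀ k ≤ n, 0 < k → (pos h k).1 = 0 → 0 < (pos h k).2) ∧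
      ∀ k < n, (pos h k).1 = (pos h n).1 → (pos h k).2 < (pos h n).2 := fun h hh => hh
  have hX2 := hW.2.1
  choose! u t hut using hex
  have hF : Pool.Agent.Work.MP_376faf_co_log.FSys (finite_HQ n X1 T1 X2 T2).toFinset
      (finite_BR n).toFinset (RM2 n X1 T1 X2 T2) (LM2 n X1 T1 X2 T2) fd sgn fd2 u t := by
    refine ⟨?_, ?_, ?_, ?_, ?_⟩
    · intro w hw i hi j hj hij
      rw [hE] at hw
      rw [hR] at hi
      rw [hL] at hj
      obtain ⟨hwb, hwn⟩ := hw
      obtain ⟨hin, himax, hih, hiX, hiH⟩ := hi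
      obtain ⟨hjn, hjr, hjT, hjH⟩ := hj
      have hjl : j ≤ w.length := by omega
      have hbr := closure2 hW hwb hwn hij hjn himax hiX hjr hjT hiH hjH
      have hlen : (fd2 w i j).length = n := by rw [fd2_length hij.le hjl, hwn]
      have e1 := fd_fd2_left hij.le hjl
      have e2 := fd_fd2_right hij.le hjl
      refine ⟨(hE _).2 ⟨hbr, hlen⟩, (hR _ _).2 ⟨hin, ?_, ?_, ?_, ?_⟩, (hL _ _).2 ⟨hjn, ?_, ?_, ?_⟩,
        fd2_fd2 hij.le hjl, e1, e2, sgn_fd2 hij hjl hih⟩
      · intro k hk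
        rw [pos_fd2_le hij.le hjl hk, pos_fd2_le hij.le hjl le_rfl]
        exact himax k hk
      · rw [pos_fd2_mid hij.le hjl (by omega) (by omega), pos_fd2_le hij.le hjl le_rfl]
        simp only
        omega
      · rw [pos_fd2_le hij.le hjl le_rfl]
        exact hiX
      · rw [e1]
        exact hjH
      · intro k hk hkn
        rw [pos_fd2_ge hij.le hjl hk.le, pos_fd2_ge hij.le hjl le_rfl]
        simp only
        have := hjr k hk hkn
        omega
      · rw [pos_fd2_ge hij.le hjl hjn, pos_fd2_ge hij.le hjl le_rfl]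
        simp only
        omega
      · rw [e2]
        exact hiH
    · intro w _ j _
      rcases sgn_cases w j with h | h <;> rw [h] <;> norm_num
    · intro w _ j _
      rcases sgn_cases w j with h | h <;> rw [h] <;> norm_num
    · intro w _ i hi _
      rw [hR] at hi
      exact sgn_max w i hi.2.1
    · intro h hh
      rw [hO] at hh
      obtain ⟨hv, hvn, hc, htn, h1, h2, h3, h3', h4, h5, h6, h7⟩ := hut h hh
      have htn2 : t h < n := by
        rcases Nat.eq_or_lt_of_le htn with h7 | h7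
        · rw [h7] at h3
          omega
        · exact h7
      refine ⟨(hE _).2 ⟨hv, hvn⟩, (hR _ _).2 ⟨htn2, hc.1, ?_, h1, ?_⟩, (hL _ _).2 ⟨htn, ?_, h3, ?_⟩,
        h4.symm⟩
      · exact (hc.2 (t h + 1) (by omega) (by omega)).ne'
      · rw [← h4]
        exact hh
      · intro k hk hkn
        exact hc.2 k hk (by omega)
      · rw [← h4]
        exact hh
  obtain ⟨g, hg1, hg2⟩ := Pool.Agent.Work.MP_376faf_co_log.ferm_inj hF
  refine ⟨g, ?_, ?_⟩
  · intro a ha b hb hab
    exact hg1 (by simpa using ha) (by simpa using hb) hab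
  · intro h hh
    obtain ⟨h1, i, hi, h2⟩ := hg2 h ((hO h).2 hh)
    rw [hE] at h1
    rw [hR] at hi
    exact ⟨h1.1, h1.2, i, hi.1.le, h2, hi.2.1⟩

end Pool.Agent.Work.MP_376faf_co_poly
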