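import Mathlib
import Pool.Agent.Work.MP_376faf_co_neps.SLemma

/-! The S-lemma with a vertical ray (notes 3118, 3134): `i` is a running maximum of the columns,
all later columns than `j` are to the right of `j`; both single folds avoid the ray
`{(-1, h) : h ≤ y 0}`.  Parity argument. -/

set_option autoImplicit false

namespace Pool.Agent.Work.MP_376faf_co_poly

open Finset
open Pool.Agent.Work.MP_376faf_co_neps.Abs

/-- side function of the reflected walk `a` (continued from its start by one step to the right and
then a ray going down) -/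
def sd (n : ℕ) (a y : ℕ → ℤ) (c h : ℤ) : ZMod 2 :=
  NN n a y c h + if a 0 + 2 ≤ c ∨ (c = a 0 + 1 ∧ y 0 < h) then 1 else 0

theorem NN_zero_of {n : ℕ} {a y : ℕ → ℤ} (c h : ℤ) (H : ∀ m ≤ n, a m ≠ c) :
    NN n a y c h = 0 := by
  unfold NN
  refine sum_eq_zero fun m hm => ?_
  have hm := mem_range.1 hm
  unfold ee
  rw [if_neg]
  rintro ⟨_, ⟨_, h2⟩ | ⟨h1, _⟩⟩
  · exact H (m + 1) (by omega) h2
  · exact H m (by omega) h1

theorem ray_s (n : ℕ) (x y : ℕ → ℤ) (hs : ∀ i < n, US x y i)
    (i j : ℕ) (hij : i < j) (hjn : j ≤ n)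
    (hinj : ∀ k ≤ i, ∀ l ≤ i, x k = x l → y k = y l → k = l)
    (x0 : x 0 = 0) (xnn : ∀ k ≤ n, 0 ≤ x k)
    (hi : ∀ k ≤ i, x k ≤ x i) (hj : ∀ k ≤ n, j < k → x j < x k)
    (hi1 : 1 ≤ x i) (hd : x i < x j) (hS : 2 * x j < x n)
    (hfi : ∀ k ≤ i, ∀ l ≤ n, i < l → x k = 2 * x i - x l → y k = y l → False)
    (hfj : ∀ k ≤ j, ∀ l ≤ n, j < l → x k = 2 * x j - x l → y k = y l → False)
    (hri : ∀ l ≤ n, i < l → 2 * x i - x l = -1 → y 0 < y l)
    (hrj : ∀ l ≤ n, j < l → 2 * x j - x l = -1 → y 0 < y l) :
    ∀ k ≤ i, ∀ l ≤ n, j < l → x k = x l - 2 * (x j - x i) → y k = y l → False := by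
  set a : ℕ → ℤ := fun m => 2 * x i - x m with ha
  have hai : ∀ m, a m = 2 * x i - x m := fun m => rfl
  have hsa : ∀ m < n, US a y m := by
    intro m hm
    have := hs m hm
    unfold US at this ⊢
    rw [← this]
    congr 1
    rw [hai, hai, show 2 * x i - x (m + 1) - (2 * x i - x m) = -(x (m + 1) - x m) by ring, abs_neg]
  -- `R'` avoids `A`
  have hR : ∀ l ≤ n, j < l → ∀ m ≤ n, ¬ (a m = x l - 2 * (x j - x i) ∧ y m = y l) := by
    rintro l hl hjl m hm ⟨h1, h2⟩
    rw [hai] at h1
    rcases Nat.lt_or_ge j m with h3 | h3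
    · have h4 := hj m hm h3
      have h5 := hj l hl hjl
      omega
    · exact hfj m h3 l hl hjl (by omega) h2
  -- `R'` avoids the reflected ray
  have hRr : ∀ l ≤ n, j < l → x l - 2 * (x j - x i) = a 0 + 1 → y 0 < y l := by
    intro l hl hjl h1
    rw [hai] at h1
    exact hrj l hl hjl (by omega)
  -- `P` without its last point avoids the points of `A` with indices `≥ i`
  have hP : ∀ k < i, ∀ m ≤ n, i ≤ m → ¬ (a m = x k ∧ y m = y k) := by
    rintro k hk m hm him ⟨h1, h2⟩
    rw [hai] at h1
    rcases Nat.lt_or_ge i m with h3 | h3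
    · exact hfi k hk.le m hm h3 (by omega) h2.symm
    · have h4 : m = i := by omega
      subst h4
      have := hinj m le_rfl k hk.le (by omega) h2
      omega
  -- `P` is on the left side
  have hleft : ∀ k < i, NN n a y (x k) (y k) = 0 := by
    intro k
    induction k with
    | zero =>
      intro _
      unfold NN
      refine sum_eq_zero fun m hm => ?_
      have hm := mem_range.1 hm
      unfold ee
      rw [if_neg]
      rintro ⟨h1, h2 | h2⟩
      · have h3 : i < m := by
          by_contra h3
          have := hi m (by omega)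
          rw [hai] at h2
          omega
        have h4 := hri m (by omega) h3 (by have := h2.1; rw [hai] at this; omega)
        omega
      · have h3 : i < m + 1 := by
          by_contra h3
          have := hi (m + 1) (by omega)
          have h4 := h2.2
          rw [hai] at h4
          omega
        have h4 := hri (m + 1) (by omega) h3 (by have := h2.2; rw [hai] at this; omega)
        have h5 := (hsa m hm).cases
        omega
    | succ k ih =>
      intro h1
      have h3 := ih (by omega)
      have hxk := hi k (by omega)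
      have hxk1 := hi (k + 1) (by omega)
      have hxk0 := xnn k (by omega)
      have hxk10 := xnn (k + 1) (by omega)
      -- points of `A` in columns `< x i` have indices `> i`
      have hcol : ∀ m ≤ n, a m < x i → i < m := by
        intro m _ h4
        by_contra h5
        have := hi m (by omega)
        rw [hai] at h4
        omega
      have hedge : ∀ k' < i, x k' ≤ x i → ∀ m < n, ¬ (y m = y k' ∧
          ((a m = x k' - 1 ∧ a (m + 1) = x k') ∨ (a m = x k' ∧ a (m + 1) = x k' - 1))) := by
        rintro k' hk' hxk' m hm ⟨h4, h5 | h5⟩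
        · have h6 := hcol m hm.le (by omega)
          have hus := (hsa m hm).cases
          exact hP k' hk' (m + 1) (by omega) (by omega) ⟨h5.2, by omega⟩
        · have h6 := hcol (m + 1) (by omega) (by omega)
          exact hP k' hk' m hm.le (by omega) ⟨h5.1, h4⟩
      have hA : ∀ k' < i, x k' < x i → ∀ m ≤ n, ¬ (a m = x k' ∧ y m = y k') := by
        rintro k' hk' hxk' m hm ⟨h4, h5⟩
        exact hP k' hk' m hm (hcol m hm (by omega)).le ⟨h4, h5⟩
      have ha0 : a 0 = 2 * x i := by rw [hai, x0]; ring
      have han : a n < 0 := by rw [hai]; omega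
      rcases (hs k (by omega)).cases with ⟨h4, h5⟩ | ⟨h4, h5⟩ | ⟨h4, h5⟩ | ⟨h4, h5⟩
      · rw [h4, h5, NN_hor hsa (x k) (y k) ?_ (by omega) (by omega)]
        · exact h3
        · exact hA k (by omega) (by omega)
      · have h9 : x k = x (k + 1) + 1 := by omega
        rw [h9, ← h5] at h3
        rw [← h3]
        exact (NN_hor hsa (x (k + 1)) (y (k + 1)) (hA (k + 1) h1 (by omega)) (by omega)
          (by omega)).symm
      · rw [h4, h5, NN_vert]
        · exact h3
        · exact hedge k (by omega) hxk
      · have h9 : y k = y (k + 1) + 1 := by omega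
        rw [h9, ← h4, NN_vert] at h3
        · exact h3
        · exact hedge (k + 1) h1 hxk1
  -- the side function is constant along `R'`
  have ha0 : a 0 = 2 * x i := by rw [hai, x0]; ring
  have han : a n < 0 := by rw [hai]; omega
  have hxa : ∀ m ≤ n, a m ≤ a 0 := by
    intro m hm
    have := xnn m hm
    rw [hai, ha0]
    omega
  -- horizontal moves
  have hhor : ∀ c h : ℤ, a n < c → (∀ m ≤ n, ¬ (a m = c ∧ y m = h)) → (c = a 0 + 1 → y 0 < h) →
      sd n a y (c + 1) h = sd n a y c h := by
    intro c h hc hAc hray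
    unfold sd
    rcases lt_trichotomy c (a 0) with h1 | h1 | h1
    · rw [if_neg (by omega), if_neg (by omega), NN_hor hsa c h hAc (by omega) (by omega)]
    · have h2 := tele n hsa c h
      have h3 : gg a y c h n = 0 := by unfold gg; rw [if_neg]; intro h; omega
      have h4 : gg a y c h 0 = if y 0 < h then 1 else 0 := by
        unfold gg
        by_cases h5 : y 0 < h
        · rw [if_pos ⟨h1.symm, h5⟩, if_pos h5]
        · rw [if_neg (fun h6 => h5 h6.2), if_neg h5]
      have h5 : ∑ i ∈ range n, vv a y c h i = 0 := by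
        refine sum_eq_zero (fun i hi => ?_)
        have hi := mem_range.1 hi
        unfold vv
        rw [if_neg]
        rintro ⟨h5, h6, h7 | h7⟩
        · exact hAc i (by omega) ⟨h5, h7.1⟩
        · exact hAc (i + 1) (by omega) ⟨h6, h7.2⟩
      rw [h3, h4, h5, zero_add, add_zero] at h2
      have h6 : NN n a y (c + 1) h = 0 := NN_zero_of _ _ fun m hm => by
        have := hxa m hm
        omega
      have h7 : NN n a y c h = if y 0 < h then 1 else 0 := by
        rw [h2]
        change NN n a y c h = NN n a y c h + NN n a y (c + 1) h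
        rw [h6, add_zero]
      rw [h6, h7, zero_add]
      by_cases h8 : y 0 < h
      · rw [if_pos (by omega), if_pos h8, if_neg (by omega), add_zero]
      · rw [if_neg (by omega), if_neg h8, if_neg (by omega), add_zero]
    · have h6 : NN n a y (c + 1) h = 0 := NN_zero_of _ _ fun m hm => by
        have := hxa m hm
        omega
      have h7 : NN n a y c h = 0 := NN_zero_of _ _ fun m hm => by
        have := hxa m hm
        omega
      rw [h6, h7, if_pos (by omega), if_pos]
      rcases eq_or_lt_of_le (show a 0 + 1 ≤ c by omega) with h8 | h8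
      · exact Or.inr ⟨h8.symm, hray h8.symm⟩
      · exact Or.inl (by omega)
  -- vertical moves
  have hver : ∀ c h : ℤ, (∀ m ≤ n, ¬ (a m = c ∧ y m = h)) → (c = a 0 + 1 → y 0 < h) →
      sd n a y c (h + 1) = sd n a y c h := by
    intro c h hAc hray
    unfold sd
    rw [NN_vert c h]
    · congr 1
      by_cases h1 : c = a 0 + 1
      · have := hray h1
        rw [if_pos (by omega), if_pos (by omega)]
      · by_cases h2 : a 0 + 2 ≤ c
        · rw [if_pos (by omega), if_pos (by omega)]
        · rw [if_neg (by omega), if_neg (by omega)]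
    · rintro m hm ⟨h1, h2 | h2⟩
      · have h3 := (hsa m hm).cases
        exact hAc (m + 1) (by omega) ⟨h2.2, by omega⟩
      · exact hAc m (by omega) ⟨h2.1, h1⟩
  have hright : ∀ m : ℕ, m ≤ n → j < n - m →
      sd n a y (x (n - m) - 2 * (x j - x i)) (y (n - m)) = 1 := by
    intro m
    induction m with
    | zero =>
      intro _ h1
      rw [Nat.sub_zero] at h1 ⊢
      unfold sd
      rw [NN_zero_of _ _ fun m hm => by have := hxa m hm; omega, zero_add, if_pos]
      by_cases h2 : a 0 + 2 ≤ x n - 2 * (x j - x i)
      · exact Or.inl h2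
      · have h3 : x n - 2 * (x j - x i) = a 0 + 1 := by omega
        exact Or.inr ⟨h3, hRr n le_rfl h1 h3⟩
    | succ m ih =>
      intro h1 h2
      obtain ⟨l, hl⟩ : ∃ l, l = n - (m + 1) := ⟨_, rfl⟩
      have hl1 : n - m = l + 1 := by omega
      have h3 := ih (by omega) (by omega)
      rw [hl1] at h3
      rw [← hl] at h2 ⊢
      have hln : l + 1 ≤ n := by omega
      have hxl := hj l (by omega) h2
      have hxl1 := hj (l + 1) hln (by omega)
      have han1 : a n = 2 * x i - x n := hai n
      have hA := hR l (by omega) h2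
      have hA1 := hR (l + 1) hln (by omega)
      have hr := hRr l (by omega) h2
      have hr1 := hRr (l + 1) hln (by omega)
      rcases (hs l (by omega)).cases with ⟨h4, h5⟩ | ⟨h4, h5⟩ | ⟨h4, h5⟩ | ⟨h4, h5⟩
      · rw [← h3, h4, h5, show x l + 1 - 2 * (x j - x i) = x l - 2 * (x j - x i) + 1 by ring]
        exact (hhor _ _ (by omega) (fun m hm => hA m hm) hr).symm
      · rw [← h3, h5, show x l - 2 * (x j - x i) = x (l + 1) - 2 * (x j - x i) + 1 by omega]
        rw [← h5]
        exact hhor _ _ (by omega) (fun m hm => hA1 m hm) hr1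
      · rw [← h3, h4, h5]
        exact (hver _ _ (fun m hm => hA m hm) hr).symm
      · rw [← h3, h4, show y l = y (l + 1) + 1 by omega]
        have h9 := hver (x l - 2 * (x j - x i)) (y (l + 1)) (fun m hm => by
          have := hA1 m hm
          rwa [h4] at this) (fun h => hr1 (by rw [h4]; exact h))
        exact h9
  intro k hk l hl hjl h1 h2
  rcases Nat.lt_or_ge k i with h3 | h3
  · have h4 := hleft k h3
    have h5 := hright (n - l) (by omega) (by omega)
    rw [show n - (n - l) = l by omega] at h5
    rw [← h1, ← h2] at h5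
    have h6 := hi k hk
    unfold sd at h5
    rw [if_neg (by omega), add_zero, h4] at h5
    exact zero_ne_one h5
  · have h4 : k = i := by omega
    subst h4
    exact hR l hl hjl k (by omega) ⟨by rw [hai]; omega, h2⟩

end Pool.Agent.Work.MP_376faf_co_poly
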